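import Pool.Agent.U670.GEDef

/-!
# Examples of degree functions; Euclidean rings

Owner helper670.
-/

set_option autoImplicit false

namespace Pool.Agent.U670.GE

theorem deg_mvPolynomial (K : Type) [Field K] (σ : Type) :
    IsDegree K (MvPolynomial σ K) MvPolynomial.totalDegree where
  add_le := MvPolynomial.totalDegree_add
  mul_ne := fun x y hx hy => mul_ne_zero hx hy
  mul := fun x y hx hy => MvPolynomial.totalDegree_mul_of_isDomain hx hy
  zero_iff := fun x => by
    rw [MvPolynomial.totalDegree_eq_zero_iff_eq_C]
    constructor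
    · intro h
      exact ⟨_, h⟩
    · rintro ⟨a, rfl⟩
      rw [MvPolynomial.algebraMap_eq, MvPolynomial.coeff_zero_C]

theorem deg_polynomial (K : Type) [Field K] : IsDegree K (Polynomial K) Polynomial.natDegree where
  add_le := Polynomial.natDegree_add_le
  mul_ne := fun x y hx hy => mul_ne_zero hx hy
  mul := fun x y hx hy => Polynomial.natDegree_mul hx hy
  zero_iff := fun x => by
    rw [Polynomial.natDegree_eq_zero]
    constructor
    · rintro ⟨a, rfl⟩
      exact ⟨a, rfl⟩
    · rintro ⟨a, rfl⟩
      exact ⟨a, rfl⟩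

/-! ### free algebras -/

section free

variable {K X : Type} [Field K]

/-- the degree of a noncommutative polynomial -/
noncomputable def fdeg (f : MonoidAlgebra K (FreeMonoid X)) : ℕ :=
  f.coeff.support.sup FreeMonoid.length

theorem len_le {f : MonoidAlgebra K (FreeMonoid X)} {u : FreeMonoid X} (h : u ∈ f.coeff.support) :
    u.length ≤ fdeg f := Finset.le_sup (f := FreeMonoid.length) h

theorem exists_len {f : MonoidAlgebra K (FreeMonoid X)} (hf : f ≠ 0) :
    ∃ u ∈ f.coeff.support, u.length = fdeg f := by
  have h1 : f.coeff.support.Nonempty := by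
    rw [Finsupp.support_nonempty_iff]
    intro h
    exact hf (MonoidAlgebra.coeff_eq_zero.1 h)
  obtain ⟨u, hu, h2⟩ := Finset.exists_mem_eq_sup _ h1 FreeMonoid.length
  exact ⟨u, hu, h2.symm⟩

theorem uniq {f g : MonoidAlgebra K (FreeMonoid X)} {u v : FreeMonoid X} (hu : u.length = fdeg f)
    (hv : v.length = fdeg g) : UniqueMul f.coeff.support g.coeff.support u v := by
  intro a b ha hb hab
  have h1 := len_le ha
  have h2 := len_le hb
  have h3 := congrArg FreeMonoid.length hab
  rw [FreeMonoid.length_mul, FreeMonoid.length_mul] at h3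
  have h4 : a.length = u.length := by omega
  have h5 : a.toList ++ b.toList = u.toList ++ v.toList := by
    have := congrArg FreeMonoid.toList hab
    rwa [FreeMonoid.toList_mul, FreeMonoid.toList_mul] at this
  have h6 := List.append_inj h5 h4
  exact ⟨FreeMonoid.toList.injective h6.1, FreeMonoid.toList.injective h6.2⟩

theorem coeff_top {f g : MonoidAlgebra K (FreeMonoid X)} {u v : FreeMonoid X}
    (hu : u.length = fdeg f) (hv : v.length = fdeg g) :
    (f * g).coeff (u * v) = f.coeff u * g.coeff v :=
  MonoidAlgebra.coeff_mul_mul_of_uniqueMul (uniq hu hv)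

theorem fdeg_mul {f g : MonoidAlgebra K (FreeMonoid X)} (hf : f ≠ 0) (hg : g ≠ 0) :
    f * g ≠ 0 ∧ fdeg (f * g) = fdeg f + fdeg g := by
  classical
  obtain ⟨u, hu, hu'⟩ := exists_len hf
  obtain ⟨v, hv, hv'⟩ := exists_len hg
  have h1 := coeff_top hu' hv'
  have h2 : (f * g).coeff (u * v) ≠ 0 := by
    rw [h1]
    exact mul_ne_zero (Finsupp.mem_support_iff.1 hu) (Finsupp.mem_support_iff.1 hv)
  have h3 : f * g ≠ 0 := by
    intro h
    apply h2
    rw [h]
    rfl
  refine ⟨h3, le_antisymm ?_ ?_⟩
  · refine Finset.sup_le fun w hw => ?_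
    have h4 := MonoidAlgebra.support_coeff_mul_subset f g hw
    rw [Finset.mem_mul] at h4
    obtain ⟨a, ha, b, hb, rfl⟩ := h4
    rw [FreeMonoid.length_mul]
    exact add_le_add (len_le ha) (len_le hb)
  · have h4 := len_le (Finsupp.mem_support_iff.2 h2)
    rw [FreeMonoid.length_mul, hu', hv'] at h4
    exact h4

theorem fdeg_isDegree : IsDegree K (MonoidAlgebra K (FreeMonoid X)) fdeg where
  add_le := fun f g => by
    classical
    refine Finset.sup_le fun w hw => ?_
    rw [MonoidAlgebra.coeff_add] at hw
    rcases Finset.mem_union.1 (Finsupp.support_add hw) with h | h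
    · exact (len_le h).trans (le_max_left _ _)
    · exact (len_le h).trans (le_max_right _ _)
  mul_ne := fun f g hf hg => (fdeg_mul hf hg).1
  mul := fun f g hf hg => (fdeg_mul hf hg).2
  zero_iff := fun f => by
    constructor
    · intro h
      refine ⟨f.coeff 1, ?_⟩
      apply MonoidAlgebra.coeff_injective
      ext w
      by_cases hw : w = 1
      · subst hw
        simp
      · have h1 : f.coeff w = 0 := by
          by_contra hne
          have h2 := len_le (Finsupp.mem_support_iff.2 hne)
          rw [h, Nat.le_zero, FreeMonoid.length_eq_zero] at h2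
          exact hw h2
        rw [h1]
        simp [Finsupp.single_apply, Ne.symm hw]
    · rintro ⟨a, rfl⟩
      refine Nat.le_zero.1 (Finset.sup_le fun w hw => ?_)
      have h1 : w = 1 := by
        by_contra hne
        rw [Finsupp.mem_support_iff] at hw
        apply hw
        simp [Finsupp.single_apply, Ne.symm hne]
      rw [h1, FreeMonoid.length_one]

theorem IsDegree.transport {R S : Type} [Ring R] [Ring S] [Algebra K R] [Algebra K S]
    {deg : S → ℕ} (h : IsDegree K S deg) (e : R ≃ₐ[K] S) : IsDegree K R (fun x => deg (e x)) where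
  add_le := fun x y => by
    rw [map_add]
    exact h.add_le _ _
  mul_ne := fun x y hx hy hxy => by
    apply h.mul_ne (e x) (e y)
    · exact fun h0 => hx (e.injective (by rw [h0, map_zero]))
    · exact fun h0 => hy (e.injective (by rw [h0, map_zero]))
    · rw [← map_mul, hxy, map_zero]
  mul := fun x y hx hy => by
    rw [map_mul]
    refine h.mul _ _ ?_ ?_
    · exact fun h0 => hx (e.injective (by rw [h0, map_zero]))
    · exact fun h0 => hy (e.injective (by rw [h0, map_zero]))
  zero_iff := fun x => by
    rw [h.zero_iff]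
    constructor
    · rintro ⟨a, ha⟩
      exact ⟨a, e.injective (by rw [ha, e.commutes])⟩
    · rintro ⟨a, rfl⟩
      exact ⟨a, e.commutes a⟩

theorem deg_freeAlgebra (K : Type) [Field K] (X : Type) :
    IsDegree K (FreeAlgebra K X) (fun x => fdeg (FreeAlgebra.equivMonoidAlgebraFreeMonoid x)) :=
  fdeg_isDegree.transport _

end free

/-! ### Euclidean rings -/

section euclid

variable {R : Type} [EuclideanDomain R]

/-- an elementary matrix -/
def upM (r : R) : (Matrix (Fin 2) (Fin 2) R)ˣ where
  val := !![1, r; 0, 1]
  inv := !![1, -r; 0, 1]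
  val_inv := by
    ext i j
    fin_cases i <;> fin_cases j <;> simp [Matrix.mul_apply, Fin.sum_univ_two]
  inv_val := by
    ext i j
    fin_cases i <;> fin_cases j <;> simp [Matrix.mul_apply, Fin.sum_univ_two]

/-- an elementary matrix -/
def loM (r : R) : (Matrix (Fin 2) (Fin 2) R)ˣ where
  val := !![1, 0; r, 1]
  inv := !![1, 0; -r, 1]
  val_inv := by
    ext i j
    fin_cases i <;> fin_cases j <;> simp [Matrix.mul_apply, Fin.sum_univ_two]
  inv_val := by
    ext i j
    fin_cases i <;> fin_cases j <;> simp [Matrix.mul_apply, Fin.sum_univ_two]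

theorem upM_mem (r : R) : upM r ∈ GE2 R := Subgroup.subset_closure (Or.inr (Or.inl ⟨r, rfl⟩))

theorem loM_mem (r : R) : loM r ∈ GE2 R := Subgroup.subset_closure (Or.inr (Or.inr ⟨r, rfl⟩))

theorem mul2' (g h : (Matrix (Fin 2) (Fin 2) R)ˣ) (i j : Fin 2) :
    (g * h).val i j = g.val i 0 * h.val 0 j + g.val i 1 * h.val 1 j := by
  rw [Units.val_mul, Matrix.mul_apply, Fin.sum_univ_two]

theorem GE2_top : GE2 R = ⊤ := by
  rw [eq_top_iff]
  have key : ∀ c : R, ∀ g : (Matrix (Fin 2) (Fin 2) R)ˣ, g.val 1 0 = c → g ∈ GE2 R := by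
    intro c
    refine EuclideanDomain.r_wellFounded.induction (C := fun c => ∀ g : (Matrix (Fin 2) (Fin 2) R)ˣ,
      g.val 1 0 = c → g ∈ GE2 R) c ?_
    · intro c ih g hg
      by_cases hc : c = 0
      · subst hc
        -- triangular
        have i00 := mul2' g g⁻¹ 1 1
        have i01 := mul2' g⁻¹ g 0 0
        rw [mul_inv_cancel, Units.val_one, Matrix.one_apply_eq, hg, zero_mul, zero_add] at i00
        rw [inv_mul_cancel, Units.val_one, Matrix.one_apply_eq, hg, mul_zero, add_zero] at i01
        obtain ⟨a, ha⟩ : ∃ a, a = (g⁻¹).val 0 0 := ⟨_, rfl⟩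
        obtain ⟨b, hb⟩ : ∃ b, b = (g⁻¹).val 1 1 := ⟨_, rfl⟩
        rw [← hb] at i00
        rw [← ha] at i01
        let d : (Matrix (Fin 2) (Fin 2) R)ˣ :=
          { val := !![g.val 0 0, 0; 0, g.val 1 1]
            inv := !![a, 0; 0, b]
            val_inv := by
              ext i j
              fin_cases i <;> fin_cases j <;>
                simp [Matrix.mul_apply, Fin.sum_univ_two, ← i00, mul_comm (g.val 0 0) a, ← i01]
            inv_val := by
              ext i j
              fin_cases i <;> fin_cases j <;>
                simp [Matrix.mul_apply, Fin.sum_univ_two, ← i01, mul_comm b (g.val 1 1), ← i00] }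
        have hd : d ∈ GE2 R := Subgroup.subset_closure (Or.inl ⟨by simp [d], by simp [d]⟩)
        have he : g = d * upM (a * g.val 0 1) := by
          apply Units.ext
          ext i j
          rw [mul2']
          fin_cases i <;> fin_cases j
          · simp [d, upM]
          · simp only [d, upM, Fin.zero_eta, Fin.mk_one, Matrix.of_apply, Matrix.cons_val', Matrix.cons_val_zero,
              Matrix.cons_val_one, Matrix.cons_val_fin_one, mul_one, zero_mul, add_zero]
            rw [← mul_assoc, mul_comm (g.val 0 0), ← i01, one_mul]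
          · simp [d, upM, hg]
          · simp [d, upM]
        rw [he]
        exact mul_mem hd (upM_mem _)
      · -- the Euclidean algorithm
        let g' : (Matrix (Fin 2) (Fin 2) R)ˣ := loM (-1) * upM 1 * upM (-(g.val 0 0 / c)) * g
        have h1 : (upM (-(g.val 0 0 / c)) * g).val 0 0 = g.val 0 0 % c := by
          rw [mul2', hg]
          simp only [upM, Matrix.of_apply, Matrix.cons_val', Matrix.cons_val_zero,
              Matrix.cons_val_one, Matrix.cons_val_fin_one, one_mul]
          rw [EuclideanDomain.mod_eq_sub_mul_div]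
          ring
        have h2 : (upM (-(g.val 0 0 / c)) * g).val 1 0 = c := by
          rw [mul2', hg]
          simp [upM]
        have h3 : (upM 1 * (upM (-(g.val 0 0 / c)) * g)).val 0 0 = g.val 0 0 % c + c := by
          rw [mul2', h1, h2]
          simp [upM]
        have h4 : (upM 1 * (upM (-(g.val 0 0 / c)) * g)).val 1 0 = c := by
          rw [mul2', h1, h2]
          simp [upM]
        have h5 : (loM (-1) * (upM 1 * (upM (-(g.val 0 0 / c)) * g))).val 1 0 = -(g.val 0 0 % c) := by
          rw [mul2', h3, h4]
          simp [loM]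
        have h6 : (loM (-1) * (upM 1 * (upM (-(g.val 0 0 / c)) * g))).val 0 0 = g.val 0 0 % c + c := by
          rw [mul2', h3, h4]
          simp [loM]
        let n : (Matrix (Fin 2) (Fin 2) R)ˣ :=
          { val := !![1, 0; 0, -1]
            inv := !![1, 0; 0, -1]
            val_inv := by
              ext i j
              fin_cases i <;> fin_cases j <;> simp [Matrix.mul_apply, Fin.sum_univ_two]
            inv_val := by
              ext i j
              fin_cases i <;> fin_cases j <;> simp [Matrix.mul_apply, Fin.sum_univ_two] }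
        have hn : n ∈ GE2 R := Subgroup.subset_closure (Or.inl ⟨by simp [n], by simp [n]⟩)
        have h7 : (n * (loM (-1) * (upM 1 * (upM (-(g.val 0 0 / c)) * g)))).val 1 0 =
            g.val 0 0 % c := by
          rw [mul2', h5]
          simp [n]
        have h8 := ih (g.val 0 0 % c) (EuclideanDomain.mod_lt _ hc) _ h7
        have h9 : g = (upM (-(g.val 0 0 / c)))⁻¹ * ((upM 1)⁻¹ * ((loM (-1))⁻¹ * (n⁻¹ *
            (n * (loM (-1) * (upM 1 * (upM (-(g.val 0 0 / c)) * g))))))) := by
          group
        rw [h9]
        exact mul_mem (inv_mem (upM_mem _)) (mul_mem (inv_mem (upM_mem _))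
          (mul_mem (inv_mem (loM_mem _)) (mul_mem (inv_mem hn) h8)))
  exact fun g _ => key _ g rfl

end euclid

end Pool.Agent.U670.GE
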