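import Pool.Agent.U670.JBWord
import Pool.Agent.TH768.DG.Exp
import Pool.Agent.TH768.DG.Trans

/-!
# Joint digit blocks of several real numbers
-/

set_option autoImplicit false

namespace Pool.Agent.U670.JB

open Pool.Agent.H43R2.Cplx Filter

/-- the word of the digit vectors -/
noncomputable def jw (b : ℕ) [NeZero b] {d : ℕ} (x : Fin d → ℝ) : ℕ → Fin d → Fin b :=
  fun i j => Real.digits (Int.fract (x j)) b i

/-- simultaneous approximation with exponent `τ` -/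
def Sim {d : ℕ} (x : Fin d → ℝ) (τ c : ℝ) : Prop :=
  ∀ q : ℕ, 1 ≤ q → ∀ p : Fin d → ℤ, ∃ j, c ≤ (q : ℝ) ^ τ * |q * x j - p j|

theorem rep_joint {d : ℕ} (x : Fin d → ℝ) {τ c : ℝ} (hτ : 0 < τ) (hc : 0 < c) (h : Sim x τ c)
    (b : ℕ) [NeZero b] (hb : 2 ≤ b) :
    RepD (jw b x) (1 / τ) (|Real.log c| / (τ * Real.log 2)) := by
  have hb1 : (1 : ℝ) < b := by exact_mod_cast hb
  have hb0 : (0 : ℝ) < b := by linarith
  have hl2 : 0 < Real.log 2 := Real.log_pos (by norm_num)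
  have hlog : Real.log 2 ≤ Real.log b := Real.log_le_log (by norm_num) (by exact_mod_cast hb)
  have hlog0 : 0 < Real.log b := by linarith
  intro i j n hij hE
  have hlt : b ^ i < b ^ j := Nat.pow_lt_pow_right hb hij
  have hcast : ((b ^ j - b ^ i : ℕ) : ℝ) = (b : ℝ) ^ j - (b : ℝ) ^ i := by
    rw [Nat.cast_sub hlt.le]; push_cast; ring
  obtain ⟨s, hs⟩ := h (b ^ j - b ^ i) (by omega) (fun s =>
    ((fl (Int.fract (x s)) b j : ℤ) - (fl (Int.fract (x s)) b i : ℤ)) +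
      ((b ^ j - b ^ i : ℕ) : ℤ) * ⌊x s⌋)
  have hEs : E (Real.digits (Int.fract (x s)) b) n i j := fun k hk => congrFun (hE k hk) s
  have h1 := approx (Int.fract_nonneg (x s)) hEs
  have e1 : ((b ^ j - b ^ i : ℕ) : ℝ) * x s - ((((fl (Int.fract (x s)) b j : ℤ) -
      (fl (Int.fract (x s)) b i : ℤ)) + ((b ^ j - b ^ i : ℕ) : ℤ) * ⌊x s⌋ : ℤ) : ℝ) =
      ((b : ℝ) ^ j - (b : ℝ) ^ i) * Int.fract (x s) -
        ((fl (Int.fract (x s)) b j : ℤ) - (fl (Int.fract (x s)) b i : ℤ) : ℤ) := by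
    have e2 : (((b ^ j - b ^ i : ℕ) : ℤ) : ℝ) = (b : ℝ) ^ j - (b : ℝ) ^ i := by
      rw [← hcast]; norm_cast
    rw [Int.cast_add, Int.cast_mul, e2, hcast]
    unfold Int.fract
    ring
  rw [e1, hcast] at hs
  set A := |((b : ℝ) ^ j - (b : ℝ) ^ i) * Int.fract (x s) -
        ((fl (Int.fract (x s)) b j : ℤ) - (fl (Int.fract (x s)) b i : ℤ) : ℤ)| with hA
  have hAnn : 0 ≤ A := abs_nonneg _
  have h3 : ((b : ℝ) ^ j - (b : ℝ) ^ i) ^ τ ≤ ((b : ℝ) ^ j) ^ τ := by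
    apply Real.rpow_le_rpow
    · rw [← hcast]; exact Nat.cast_nonneg _
    · have : (0 : ℝ) < (b : ℝ) ^ i := by positivity
      linarith
    · linarith
  have h4 : c ≤ ((b : ℝ) ^ j) ^ τ * A := hs.trans (mul_le_mul_of_nonneg_right h3 hAnn)
  have h5 : c * (b : ℝ) ^ n ≤ ((b : ℝ) ^ j) ^ τ := by
    have h6 : c * (b : ℝ) ^ n ≤ ((b : ℝ) ^ j) ^ τ * (A * (b : ℝ) ^ n) := by
      rw [← mul_assoc]
      exact mul_le_mul_of_nonneg_right h4 (by positivity)
    have h7 : ((b : ℝ) ^ j) ^ τ * (A * (b : ℝ) ^ n) ≤ ((b : ℝ) ^ j) ^ τ * 1 :=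
      mul_le_mul_of_nonneg_left h1.le (by positivity)
    linarith
  have h6 := Real.log_le_log (by positivity) h5
  rw [Real.log_mul hc.ne' (by positivity), Real.log_pow, Real.log_rpow (by positivity),
    Real.log_pow] at h6
  have h7 : -|Real.log c| ≤ Real.log c := neg_abs_le _
  have h8 : |Real.log c| ≤ |Real.log c| / Real.log 2 * Real.log b := by
    rw [div_mul_eq_mul_div, le_div_iff₀ hl2]
    exact mul_le_mul_of_nonneg_left hlog (abs_nonneg _)
  have h9 : (n : ℝ) * Real.log b ≤ (τ * j + |Real.log c| / Real.log 2) * Real.log b := by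
    nlinarith
  have h10 := le_of_mul_le_mul_right h9 hlog0
  rw [div_mul_eq_mul_div, one_mul, div_le_iff₀ hτ]
  have h11 : ((j : ℝ) + |Real.log c| / (τ * Real.log 2)) * τ =
      τ * j + |Real.log c| / Real.log 2 := by
    field_simp
  rw [h11]
  exact h10

/-- the denominator in the gain -/
noncomputable def G (D : ℝ) : ℝ := D ^ 3 + 3 * D ^ 2 + 4 * D + 3

theorem main {d : ℕ} (hd : 1 ≤ d) (x : Fin d → ℝ)
    (hx : ∀ ε : ℝ, 0 < ε → ∃ c : ℝ, 0 < c ∧ Sim x (1 / d + ε) c) (C : ℝ)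
    (hC : C < d + 1 / G d) :
    ∃ n0 : ℕ, ∀ (b : ℕ) [NeZero b], 2 ≤ b → ∀ n : ℕ, n0 ≤ n → C * n < p (jw b x) n := by
  have hd1 : (1 : ℝ) ≤ d := by exact_mod_cast hd
  have hd0 : (0 : ℝ) < d := by linarith
  have hGd : 0 < G d := by unfold G; positivity
  -- choose `D`
  obtain ⟨D, hD0, hDd, hDC⟩ : ∃ D : ℝ, 0 < D ∧ D < d ∧ C < D + 1 / G d := by
    refine ⟨max (d / 2) ((d + (C - 1 / G d)) / 2), ?_, ?_, ?_⟩
    · exact lt_of_lt_of_le (by positivity) (le_max_left _ _)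
    · apply max_lt <;> linarith
    · have := le_max_right ((d : ℝ) / 2) ((d + (C - 1 / G d)) / 2)
      linarith
  have hGD0 : 0 < G D := by unfold G; positivity
  have hGD : G D ≤ G d := by
    unfold G
    have h2 : D ^ 2 ≤ d ^ 2 := pow_le_pow_left₀ hD0.le hDd.le 2
    have h3 : D ^ 3 ≤ d ^ 3 := pow_le_pow_left₀ hD0.le hDd.le 3
    linarith
  have hCD : C < D + 1 / G D := by
    have := one_div_le_one_div_of_le hGD0 hGD
    linarith
  have hτ : (1 : ℝ) / d < 1 / D := one_div_lt_one_div_of_lt hD0 hDd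
  obtain ⟨c, hc, hs⟩ := hx (1 / D - 1 / d) (by linarith)
  rw [add_sub_cancel] at hs
  have hτ0 : 0 < 1 / D := by positivity
  set K := |Real.log c| / (1 / D * Real.log 2) with hK
  have hK0 : 0 ≤ K := by
    have : 0 < Real.log 2 := Real.log_pos (by norm_num)
    positivity
  set K2 : ℝ := (D + 1 / G D) * (K + 1) / (D * (1 - 1 / G D)) with hK2
  obtain ⟨n0, hn0⟩ := exists_nat_gt (K2 / (D + 1 / G D - C))
  refine ⟨n0, fun b _ hb n hn => ?_⟩
  have hr := rep_joint x hτ0 hc hs b hb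
  rw [one_div_one_div] at hr
  have h1 := complexity hD0 hK0 hr (c := 1 / G D) rfl n
  have h2 : (n0 : ℝ) ≤ n := by exact_mod_cast hn
  have h3 : K2 / (D + 1 / G D - C) < n := lt_of_lt_of_le hn0 h2
  rw [div_lt_iff₀ (by linarith)] at h3
  rw [← hK2] at h1
  nlinarith

theorem sim_of_normal {d : ℕ} (hd : 1 ≤ d) (x : Fin d → ℝ)
    (hx : Pool.Agent.TH768.DG.NormalMeasure x) (ε : ℝ) (hε : 0 < ε) :
    ∃ c : ℝ, 0 < c ∧ Sim x (1 / d + ε) c := by
  have hd0 : (0 : ℝ) < d := by exact_mod_cast hd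
  obtain ⟨c, hc, h⟩ := hx (d * ε) (by positivity)
  obtain ⟨c', hc', h'⟩ := Pool.Agent.TH768.DG.transfer hd x (d + d * ε) c (by
    have : 0 < d * ε := by positivity
    linarith) hc h
  refine ⟨c', hc', fun q hq p => ?_⟩
  obtain ⟨j, hj⟩ := h' q hq p
  refine ⟨j, ?_⟩
  rw [Real.rpow_zero, mul_one] at hj
  have e1 : ((d : ℝ) + d * ε + 1) / d - 1 = 1 / d + ε := by
    field_simp
    ring
  rw [e1] at hj
  exact hj

end Pool.Agent.U670.JB
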