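import Pool.Agent.U670.AmTree

/-!
# The version modulo a central subgroup

Owner helper670.
-/

set_option autoImplicit false

namespace Pool.Agent.U670.AT

open Pool.Agent.Y110.FJ (ClosedE)
open Pool.Agent.N509.TX (AcylF of_fg C_stab)

variable {Γ : Type} [Group Γ] {A B : Subgroup Γ} {lA lB : Γ → ℕ}

theorem out_mk (Z : Subgroup Γ) [Z.Normal] (g : Γ) :
    ∃ z ∈ Z, ((QuotientGroup.mk' Z g).out : Γ) = g * z := by
  refine ⟨g⁻¹ * (QuotientGroup.mk' Z g).out, ?_, by group⟩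
  have h : (QuotientGroup.mk g : Γ ⧸ Z) = QuotientGroup.mk ((QuotientGroup.mk' Z g).out) :=
    (Quotient.out_eq' _).symm
  exact QuotientGroup.eq.1 h

theorem mem_map_mk {Z : Subgroup Γ} [Z.Normal] {A : Subgroup Γ} (hZ : Z ≤ A) {g : Γ} :
    QuotientGroup.mk' Z g ∈ A.map (QuotientGroup.mk' Z) ↔ g ∈ A := by
  constructor
  · rintro ⟨a, ha, hag⟩
    have h1 : a⁻¹ * g ∈ Z := QuotientGroup.eq.1 hag
    have h2 : g = a * (a⁻¹ * g) := by group
    rw [h2]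
    exact mul_mem ha (hZ h1)
  · exact fun h => ⟨g, h, rfl⟩

theorem lev_quot (Z : Subgroup Γ) [Z.Normal] (hZA : Z ≤ A) (hZB : Z ≤ B) (h : Lev A B lA lB) :
    Lev (A.map (QuotientGroup.mk' Z)) (B.map (QuotientGroup.mk' Z))
      (fun x => lA x.out) (fun x => lB x.out) := by
  have eA : ∀ g : Γ, lA ((QuotientGroup.mk' Z g).out) = lA g := by
    intro g
    obtain ⟨z, hz, e⟩ := out_mk Z g
    rw [e]
    exact h.iA g z (hZA hz)
  have eB : ∀ g : Γ, lB ((QuotientGroup.mk' Z g).out) = lB g := by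
    intro g
    obtain ⟨z, hz, e⟩ := out_mk Z g
    rw [e]
    exact h.iB g z (hZB hz)
  have key : ∀ x : Γ ⧸ Z, ∃ g : Γ, QuotientGroup.mk' Z g = x := QuotientGroup.mk'_surjective Z
  refine ⟨?_, ?_, ?_, ?_, ?_, ?_⟩
  · rintro x _ ⟨a, ha, rfl⟩
    obtain ⟨g, rfl⟩ := key x
    simp only [← map_mul, eA]
    exact h.iA g a ha
  · rintro x _ ⟨a, ha, rfl⟩
    obtain ⟨g, rfl⟩ := key x
    simp only [← map_mul, eB]
    exact h.iB g a ha
  · intro x
    exact h.le _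
  · rintro _ ⟨a, ha, rfl⟩
    simp only [eA, eB]
    exact h.base a ha
  · rintro x _ ⟨a, ha, rfl⟩ h1 h2
    obtain ⟨g, rfl⟩ := key x
    simp only [← map_mul, eA, eB] at h1 h2
    exact ⟨a, h.uA g a ha h1 h2, rfl⟩
  · rintro x _ ⟨b, hb, rfl⟩ h0 h1
    obtain ⟨g, rfl⟩ := key x
    simp only [← map_mul, eA, eB] at h1 ⊢
    exact h.uB g b hb (fun hbA => h0 ⟨b, hbA, rfl⟩) h1

/-- the condition on paths with three edges modulo `Z` -/
def Core3Mod (Z A B : Subgroup Γ) : Prop :=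
  ∀ k ∈ A, k ∈ B → ∀ a ∈ A, a ∉ B → ∀ b ∈ B, b ∉ A → a⁻¹ * k * a ∈ B → b⁻¹ * k * b ∈ A → k ∈ Z

theorem core3_quot (Z : Subgroup Γ) [Z.Normal] (hZA : Z ≤ A) (hZB : Z ≤ B)
    (hc : Core3Mod Z A B) :
    Core3 (A.map (QuotientGroup.mk' Z)) (B.map (QuotientGroup.mk' Z)) := by
  rintro _ ⟨k, hkA, rfl⟩ hkB _ ⟨a, ha, rfl⟩ haB _ ⟨b, hb, rfl⟩ hbA h1 h2
  rw [mem_map_mk hZB] at hkB haB
  rw [mem_map_mk hZA] at hbA
  rw [← map_inv, ← map_mul, ← map_mul, mem_map_mk hZB] at h1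
  rw [← map_inv, ← map_mul, ← map_mul, mem_map_mk hZA] at h2
  exact (QuotientGroup.eq_one_iff _).2 (hc k hkA hkB a ha haB b hb hbA h1 h2)

variable {C : ∀ (G : Type) [Group G], Prop}

/-- **the group generated by `A` and `B` is in the class** -/
theorem lev_closed_mod (hC : ClosedE C) (hAc : AcylF C)
    (hS : ∀ (G : Type) [Group G], Group.IsSolvable G → C G) (Z : Subgroup Γ) [Z.Normal]
    (hZc : ∀ z ∈ Z, ∀ g : Γ, z * g = g * z) (hZA : Z ≤ A) (hZB : Z ≤ B) (h : Lev A B lA lB)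
    (hc : Core3Mod Z A B) (hA : C (A.map (QuotientGroup.mk' Z)))
    (hB : C (B.map (QuotientGroup.mk' Z))) : C ↥(A ⊔ B) := by
  have hQ := lev_closed hC hAc (lev_quot Z hZA hZB h) (core3_quot Z hZA hZB hc) hA hB
  refine Pool.Agent.Y529.FJ.t_ext C hC ↥(A ⊔ B) (Z.subgroupOf (A ⊔ B)) ?_ ?_ fun g _ => ?_
  · refine hS _ (Group.isSolvable_of_comm fun a b => ?_)
    exact Subtype.ext (Subtype.ext (hZc _ a.2 _))
  · let f : ↥(A ⊔ B) →* GG (A.map (QuotientGroup.mk' Z)) (B.map (QuotientGroup.mk' Z)) :=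
      ((QuotientGroup.mk' Z).comp (A ⊔ B).subtype).codRestrict _ fun x => by
        rw [← Subgroup.map_sup]
        exact ⟨x, x.2, rfl⟩
    have hf : ∀ x : ↥(A ⊔ B), f x = 1 ↔ (x : Γ) ∈ Z := by
      intro x
      have h1 : f x = 1 ↔ QuotientGroup.mk' Z (x : Γ) = 1 :=
        ⟨fun h => congrArg Subtype.val h, fun h => Subtype.ext h⟩
      rw [h1]
      exact QuotientGroup.eq_one_iff _
    refine hC.base.of_injective _ _ (QuotientGroup.lift (Z.subgroupOf (A ⊔ B)) f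
      fun x hx => (hf x).2 hx) ?_ hQ
    rw [injective_iff_map_eq_one]
    intro x hx
    obtain ⟨y, rfl⟩ := QuotientGroup.mk_surjective x
    exact (QuotientGroup.eq_one_iff _).2 ((hf y).1 hx)
  · refine hS _ (Group.isSolvable_of_comm ?_)
    have hcomm : ∀ x ∈ Z.subgroupOf (A ⊔ B) ⊔ Subgroup.zpowers g,
        ∃ z ∈ Z.subgroupOf (A ⊔ B), ∃ k : ℤ, z * g ^ k = x := by
      intro x hx
      rw [← SetLike.mem_coe, Subgroup.normal_mul, Set.mem_mul] at hx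
      obtain ⟨z, hz, w, hw, e⟩ := hx
      obtain ⟨k, rfl⟩ := Subgroup.mem_zpowers_iff.1 hw
      exact ⟨z, hz, k, e⟩
    rintro ⟨x, hx⟩ ⟨y, hy⟩
    obtain ⟨z, hz, k, rfl⟩ := hcomm x hx
    obtain ⟨w, hw, l, rfl⟩ := hcomm y hy
    apply Subtype.ext
    have c1 : ∀ t : ↥(A ⊔ B), z * t = t * z := fun t => Subtype.ext (hZc _ hz _)
    have c2 : ∀ t : ↥(A ⊔ B), w * t = t * w := fun t => Subtype.ext (hZc _ hw _)
    change z * g ^ k * (w * g ^ l) = w * g ^ l * (z * g ^ k)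
    calc z * g ^ k * (w * g ^ l) = z * (g ^ k * w) * g ^ l := by simp only [mul_assoc]
      _ = z * (w * g ^ k) * g ^ l := by rw [c2]
      _ = z * w * (g ^ k * g ^ l) := by simp only [mul_assoc]
      _ = w * z * (g ^ l * g ^ k) := by rw [c1 w, ← zpow_add, ← zpow_add, add_comm]
      _ = w * (z * g ^ l) * g ^ k := by simp only [mul_assoc]
      _ = w * (g ^ l * z) * g ^ k := by rw [c1]
      _ = w * g ^ l * (z * g ^ k) := by simp only [mul_assoc]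

end Pool.Agent.U670.AT
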