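import Pool.Agent.N509.TX.Fg

/-!
# Groups generated by two subgroups with compatible level functions act on a tree

Owner helper670. The tree part follows the argument of helper293 (`Pool.Agent.U293.PA.Tree`) for the
polynomial automorphisms of the plane, in an abstract setting.
-/

set_option autoImplicit false

namespace Pool.Agent.U670.AT

open Pool.Agent.Y110.FJ (ClosedE)
open Pool.Agent.N509.TX (AcylF of_fg C_stab)

/-- a graph with levels such that each vertex except one has exactly one lower neighbour, and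
neighbours have different levels, is a tree -/
theorem isTree_of_level {V : Type} (T : SimpleGraph V) (l : V → ℕ) (r : V)
    (h1 : ∀ u v, T.Adj u v → l u ≠ l v)
    (h2 : ∀ v, v ≠ r → ∃ u, T.Adj v u ∧ l u < l v)
    (h3 : ∀ v u u', T.Adj v u → T.Adj v u' → l u < l v → l u' < l v → u = u') : T.IsTree := by
  classical
  refine ⟨?_, ?_⟩
  · have hr : ∀ n v, l v = n → T.Reachable v r := by
      intro n
      induction n using Nat.strong_induction_on with
      | _ n ih =>
        intro v hv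
        by_cases hvr : v = r
        · rw [hvr]
        · obtain ⟨u, hu, hlt⟩ := h2 v hvr
          exact hu.reachable.trans (ih _ (by omega) u rfl)
    exact { preconnected := fun u v => (hr _ u rfl).trans (hr _ v rfl).symm, nonempty := ⟨r⟩ }
  · intro v c hc
    obtain ⟨w, hw, hmax⟩ := c.support.toFinset.exists_max_image l
      ⟨v, by simp⟩
    have hw' : w ∈ c.support := by simpa using hw
    have hc' := hc.rotate hw'
    obtain ⟨c', hcc⟩ : ∃ c' : T.Walk w w, c' = c.rotate w hw' := ⟨_, rfl⟩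
    rw [← hcc] at hc'
    have hsub : ∀ x ∈ c'.support, l x ≤ l w := by
      intro x hx
      apply hmax
      rw [List.mem_toFinset]
      rw [hcc] at hx
      exact (SimpleGraph.Walk.mem_support_rotate_iff ..).1 hx
    have hn : ¬ c'.Nil := hc'.not_nil
    have a1 := c'.adj_snd hn
    have a2 := c'.adj_penultimate hn
    have l1 : l c'.snd < l w :=
      lt_of_le_of_ne (hsub _ (c'.getVert_mem_support _)) (h1 _ _ a1).symm
    have l2 : l c'.penultimate < l w :=
      lt_of_le_of_ne (hsub _ (c'.getVert_mem_support _)) (h1 _ _ a2)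
    exact hc'.snd_ne_penultimate (h3 _ _ _ a1 a2.symm l1 l2)

variable {Γ : Type} [Group Γ]

/-- compatible level functions -/
structure Lev (A B : Subgroup Γ) (lA lB : Γ → ℕ) : Prop where
  iA : ∀ g, ∀ a ∈ A, lA (g * a) = lA g
  iB : ∀ g, ∀ b ∈ B, lB (g * b) = lB g
  le : ∀ g, lB g ≤ lA g
  base : ∀ a ∈ A, lA a ≤ lB a
  uA : ∀ g, ∀ a ∈ A, lB g < lA g → lB (g * a) < lA g → a ∈ B
  uB : ∀ g, ∀ b ∈ B, b ∉ A → lA g ≤ lB g → lB g < lA (g * b)

/-- the elements which are reduced to `A` -/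
inductive Red (A B : Subgroup Γ) (lA lB : Γ → ℕ) : Bool → Γ → Prop
  | base (g : Γ) : g ∈ A → Red A B lA lB false g
  | stA (g a : Γ) : a ∈ A → lB (g * a) < lA g → Red A B lA lB true (g * a) → Red A B lA lB false g
  | stB (g b : Γ) : b ∈ B → lA (g * b) ≤ lB g → Red A B lA lB false (g * b) →
      Red A B lA lB true g

variable {A B : Subgroup Γ} {lA lB : Γ → ℕ}

theorem redA (h : Lev A B lA lB) {g a : Γ} (hg : Red A B lA lB false g) (ha : a ∈ A) :
    Red A B lA lB false (g * a) := by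
  cases hg with
  | base _ hg => exact Red.base _ (mul_mem hg ha)
  | stA _ a0 ha0 hlt hr =>
    have e : g * a * (a⁻¹ * a0) = g * a0 := by group
    refine Red.stA _ (a⁻¹ * a0) (mul_mem (inv_mem ha) ha0) ?_ ?_
    · rw [e, h.iA g a ha]
      exact hlt
    · rw [e]
      exact hr

theorem redB (h : Lev A B lA lB) {g b : Γ} (hg : Red A B lA lB true g) (hb : b ∈ B) :
    Red A B lA lB true (g * b) := by
  cases hg with
  | stB _ b0 hb0 hle hr =>
    have e : g * b * (b⁻¹ * b0) = g * b0 := by group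
    refine Red.stB _ (b⁻¹ * b0) (mul_mem (inv_mem hb) hb0) ?_ ?_
    · rw [e, h.iB g b hb]
      exact hle
    · rw [e]
      exact hr

theorem redFT (h : Lev A B lA lB) {g : Γ} (hg : Red A B lA lB false g) :
    Red A B lA lB true g := by
  have hg0 := hg
  cases hg with
  | base _ hg =>
    refine Red.stB _ 1 (one_mem _) ?_ (by rwa [mul_one])
    rw [mul_one]
    exact h.base g hg
  | stA _ a0 ha0 hlt hr =>
    by_cases hb : a0 ∈ B
    · have := redB h hr (inv_mem hb)
      rwa [mul_inv_cancel_right] at this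
    · have h1 : ¬ lB g < lA g := fun hlt1 => hb (h.uA g a0 ha0 hlt1 hlt)
      refine Red.stB _ 1 (one_mem _) ?_ (by rwa [mul_one])
      rw [mul_one]
      exact not_lt.1 h1

theorem redTF (h : Lev A B lA lB) {g : Γ} (hg : Red A B lA lB true g) :
    Red A B lA lB false g := by
  have hg0 := hg
  cases hg with
  | stB _ b0 hb0 hle hr =>
    by_cases ha : b0 ∈ A
    · have := redA h hr (inv_mem ha)
      rwa [mul_inv_cancel_right] at this
    · have h1 : lA (g * b0) ≤ lB (g * b0) := by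
        rw [h.iB g b0 hb0]
        exact hle
      have h2 := h.uB (g * b0) b0⁻¹ (inv_mem hb0) (fun hh => ha (by simpa using inv_mem hh)) h1
      rw [mul_inv_cancel_right, h.iB g b0 hb0] at h2
      refine Red.stA _ 1 (one_mem _) ?_ (by rwa [mul_one])
      rw [mul_one]
      exact h2

theorem red_all (h : Lev A B lA lB) {g : Γ} (hg : g ∈ A ⊔ B) : Red A B lA lB false g := by
  let S : Subgroup Γ :=
    { carrier := {x | ∀ y, Red A B lA lB false y ↔ Red A B lA lB false (y * x)}
      one_mem' := fun y => by rw [mul_one]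
      mul_mem' := fun {a b} ha hb y => by
        rw [ha y, hb (y * a), mul_assoc]
      inv_mem' := fun {a} ha y => by
        rw [ha (y * a⁻¹), inv_mul_cancel_right] }
  have hA : A ≤ S := by
    intro a ha y
    refine ⟨fun hy => redA h hy ha, fun hy => ?_⟩
    have := redA h hy (inv_mem ha)
    rwa [mul_inv_cancel_right] at this
  have hB : B ≤ S := by
    intro b hb y
    refine ⟨fun hy => redTF h (redB h (redFT h hy) hb), fun hy => ?_⟩
    have := redTF h (redB h (redFT h hy) (inv_mem hb))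
    rwa [mul_inv_cancel_right] at this
  have h1 : g ∈ S := (sup_le hA hB) hg
  have h2 := (h1 1).1 (Red.base 1 (one_mem _))
  rwa [one_mul] at h2

/-- the group generated by `A` and `B` -/
abbrev GG (A B : Subgroup Γ) : Type := ↥(A ⊔ B)

/-- the vertices of the tree: the cosets of `A` and of `B` -/
abbrev Vt (A B : Subgroup Γ) : Type :=
  (GG A B ⧸ A.subgroupOf (A ⊔ B)) ⊕ (GG A B ⧸ B.subgroupOf (A ⊔ B))

/-- the vertex `g A` -/
def vA (A B : Subgroup Γ) (g : GG A B) : Vt A B := Sum.inl (QuotientGroup.mk g)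

/-- the vertex `g B` -/
def vB (A B : Subgroup Γ) (g : GG A B) : Vt A B := Sum.inr (QuotientGroup.mk g)

/-- the edges join `g A` and `g B` -/
def tr (A B : Subgroup Γ) : SimpleGraph (Vt A B) where
  Adj u v := ∃ g : GG A B, (u = vA A B g ∧ v = vB A B g) ∨ (u = vB A B g ∧ v = vA A B g)
  symm := ⟨by
    rintro u v ⟨g, h | h⟩
    · exact ⟨g, Or.inr ⟨h.2, h.1⟩⟩
    · exact ⟨g, Or.inl ⟨h.2, h.1⟩⟩⟩
  loopless := ⟨by
    rintro u ⟨g, h | h⟩
    · have := h.1.symm.trans h.2
      simp [vA, vB] at this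
    · have := h.1.symm.trans h.2
      simp [vA, vB] at this⟩

theorem vA_eq {g h : GG A B} : vA A B g = vA A B h ↔ (g : Γ)⁻¹ * h ∈ A := by
  unfold vA
  rw [Sum.inl.injEq, QuotientGroup.eq, Subgroup.mem_subgroupOf]
  rfl

theorem vB_eq {g h : GG A B} : vB A B g = vB A B h ↔ (g : Γ)⁻¹ * h ∈ B := by
  unfold vB
  rw [Sum.inr.injEq, QuotientGroup.eq, Subgroup.mem_subgroupOf]
  rfl

theorem vA_ne_vB {g h : GG A B} : vA A B g ≠ vB A B h := by simp [vA, vB]

/-- every neighbour of `g A` is `g a B` -/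
theorem adjA {g : GG A B} {w : Vt A B} (h : (tr A B).Adj (vA A B g) w) :
    ∃ a : GG A B, (a : Γ) ∈ A ∧ w = vB A B (g * a) := by
  obtain ⟨x, h | h⟩ := h
  · refine ⟨g⁻¹ * x, ?_, ?_⟩
    · exact vA_eq.1 h.1
    · rw [mul_inv_cancel_left]
      exact h.2
  · exact absurd h.1 vA_ne_vB

/-- every neighbour of `g B` is `g b A` -/
theorem adjB {g : GG A B} {w : Vt A B} (h : (tr A B).Adj (vB A B g) w) :
    ∃ b : GG A B, (b : Γ) ∈ B ∧ w = vA A B (g * b) := by
  obtain ⟨x, h | h⟩ := h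
  · exact absurd h.1.symm vA_ne_vB
  · refine ⟨g⁻¹ * x, ?_, ?_⟩
    · exact vB_eq.1 h.1
    · rw [mul_inv_cancel_left]
      exact h.2

/-- the level of a vertex -/
noncomputable def lev (A B : Subgroup Γ) (lA lB : Γ → ℕ) : Vt A B → ℕ
  | Sum.inl q => 2 * lA (q.out : Γ)
  | Sum.inr q => 2 * lB (q.out : Γ) + 1

theorem lev_A (h : Lev A B lA lB) (g : GG A B) :
    lev A B lA lB (vA A B g) = 2 * lA (g : Γ) := by
  have h1 : (g : Γ)⁻¹ * ((QuotientGroup.mk g : GG A B ⧸ A.subgroupOf (A ⊔ B)).out : Γ) ∈ A := by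
    have : (QuotientGroup.mk g : GG A B ⧸ A.subgroupOf (A ⊔ B)) = QuotientGroup.mk
        ((QuotientGroup.mk g : GG A B ⧸ A.subgroupOf (A ⊔ B)).out) := (Quotient.out_eq' _).symm
    rw [QuotientGroup.eq, Subgroup.mem_subgroupOf] at this
    exact this
  have h2 := h.iA (g : Γ) _ h1
  rw [mul_inv_cancel_left] at h2
  unfold vA lev
  simp only
  rw [h2]

theorem lev_B (h : Lev A B lA lB) (g : GG A B) :
    lev A B lA lB (vB A B g) = 2 * lB (g : Γ) + 1 := by
  have h1 : (g : Γ)⁻¹ * ((QuotientGroup.mk g : GG A B ⧸ B.subgroupOf (A ⊔ B)).out : Γ) ∈ B := by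
    have : (QuotientGroup.mk g : GG A B ⧸ B.subgroupOf (A ⊔ B)) = QuotientGroup.mk
        ((QuotientGroup.mk g : GG A B ⧸ B.subgroupOf (A ⊔ B)).out) := (Quotient.out_eq' _).symm
    rw [QuotientGroup.eq, Subgroup.mem_subgroupOf] at this
    exact this
  have h2 := h.iB (g : Γ) _ h1
  rw [mul_inv_cancel_left] at h2
  unfold vB lev
  simp only
  rw [h2]

theorem cases_v (u : Vt A B) : (∃ g, u = vA A B g) ∨ ∃ g, u = vB A B g := by
  rcases u with q | q
  · left
    obtain ⟨g, rfl⟩ := QuotientGroup.mk_surjective q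
    exact ⟨g, rfl⟩
  · right
    obtain ⟨g, rfl⟩ := QuotientGroup.mk_surjective q
    exact ⟨g, rfl⟩

theorem tr_tree (h : Lev A B lA lB) : (tr A B).IsTree := by
  refine isTree_of_level _ (lev A B lA lB) (vA A B 1) ?_ ?_ ?_
  · rintro u v ⟨g, ⟨rfl, rfl⟩ | ⟨rfl, rfl⟩⟩
    · rw [lev_A h, lev_B h]
      omega
    · rw [lev_A h, lev_B h]
      omega
  · intro v hv
    rcases cases_v v with ⟨g, rfl⟩ | ⟨g, rfl⟩
    · have hr := red_all h g.2
      cases hr with
      | base _ hg =>
        exfalso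
        apply hv
        rw [vA_eq]
        have := inv_mem hg
        simpa using this
      | stA _ a ha hlt _ =>
        have ha' : a ∈ A ⊔ B := Subgroup.mem_sup_left ha
        refine ⟨vB A B (g * ⟨a, ha'⟩), ⟨g * ⟨a, ha'⟩, Or.inl ⟨?_, rfl⟩⟩, ?_⟩
        · rw [vA_eq]
          simpa using ha
        · rw [lev_A h, lev_B h]
          change 2 * lB ((g : Γ) * a) + 1 < _
          omega
    · have hr := redFT h (red_all h g.2)
      cases hr with
      | stB _ b hb hle _ =>
        have hb' : b ∈ A ⊔ B := Subgroup.mem_sup_right hb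
        refine ⟨vA A B (g * ⟨b, hb'⟩), ⟨g * ⟨b, hb'⟩, Or.inr ⟨?_, rfl⟩⟩, ?_⟩
        · rw [vB_eq]
          simpa using hb
        · rw [lev_A h, lev_B h]
          change 2 * lA ((g : Γ) * b) < _
          omega
  · intro v u u' hu hu' hl hl'
    rcases cases_v v with ⟨g, rfl⟩ | ⟨g, rfl⟩
    · obtain ⟨a, ha, rfl⟩ := adjA hu
      obtain ⟨a', ha', rfl⟩ := adjA hu'
      rw [lev_A h, lev_B h] at hl hl'
      have h1 : lB ((g : Γ) * a) < lA (g : Γ) := by
        change 2 * lB ((g : Γ) * a) + 1 < _ at hl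
        omega
      have h2 : lB ((g : Γ) * a') < lA (g : Γ) := by
        change 2 * lB ((g : Γ) * a') + 1 < _ at hl'
        omega
      have e0 : (g : Γ) * a * ((a : Γ)⁻¹ * a') = (g : Γ) * a' := by group
      have h3 := h.uA ((g : Γ) * a) ((a : Γ)⁻¹ * a') (mul_mem (inv_mem ha) ha')
        (by rwa [h.iA _ _ ha]) (by rw [e0, h.iA _ _ ha]; exact h2)
      rw [vB_eq]
      have e : ((g * a : GG A B) : Γ)⁻¹ * ((g * a' : GG A B) : Γ) = (a : Γ)⁻¹ * (a' : Γ) := by
        rw [Subgroup.coe_mul, Subgroup.coe_mul]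
        group
      rw [e]
      exact h3
    · obtain ⟨b, hb, rfl⟩ := adjB hu
      obtain ⟨b', hb', rfl⟩ := adjB hu'
      rw [lev_A h, lev_B h] at hl hl'
      have h1 : lA ((g : Γ) * (b : Γ)) ≤ lB (g : Γ) := by
        change 2 * lA ((g : Γ) * (b : Γ)) < _ at hl
        omega
      have h2 : lA ((g : Γ) * (b' : Γ)) ≤ lB (g : Γ) := by
        change 2 * lA ((g : Γ) * (b' : Γ)) < _ at hl'
        omega
      rw [vA_eq]
      have e : ((g * b : GG A B) : Γ)⁻¹ * ((g * b' : GG A B) : Γ) = (b : Γ)⁻¹ * (b' : Γ) := by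
        rw [Subgroup.coe_mul, Subgroup.coe_mul]
        group
      rw [e]
      have hbb : (b : Γ)⁻¹ * (b' : Γ) ∈ B := mul_mem (inv_mem hb) hb'
      by_contra hna
      have h3 := h.uB ((g : Γ) * (b : Γ)) _ hbb hna (by rw [h.iB _ _ hb]; exact h1)
      have e2 : (g : Γ) * (b : Γ) * ((b : Γ)⁻¹ * (b' : Γ)) = (g : Γ) * (b' : Γ) := by group
      rw [e2, h.iB _ _ hb] at h3
      exact absurd h2 (not_le.2 h3)

/-! ### the action -/

theorem smul_vA (g x : GG A B) : g • vA A B x = vA A B (g * x) := rfl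

theorem smul_vB (g x : GG A B) : g • vB A B x = vB A B (g * x) := rfl

theorem tr_act (g : GG A B) (u v : Vt A B) (h : (tr A B).Adj u v) :
    (tr A B).Adj (g • u) (g • v) := by
  obtain ⟨x, ⟨rfl, rfl⟩ | ⟨rfl, rfl⟩⟩ := h
  · exact ⟨g * x, Or.inl ⟨rfl, rfl⟩⟩
  · exact ⟨g * x, Or.inr ⟨rfl, rfl⟩⟩

theorem tr_inv (g : GG A B) (u v : Vt A B) (h : (tr A B).Adj u v) :
    ¬ (g • u = v ∧ g • v = u) := by
  obtain ⟨x, ⟨rfl, rfl⟩ | ⟨rfl, rfl⟩⟩ := h
  · rintro ⟨h1, -⟩
    exact vA_ne_vB h1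
  · rintro ⟨h1, -⟩
    exact vA_ne_vB h1.symm

theorem fixA {g x : GG A B} (h : g • vA A B x = vA A B x) :
    (x : Γ)⁻¹ * (g : Γ) * (x : Γ) ∈ A := by
  rw [smul_vA] at h
  have := vA_eq.1 h.symm
  rwa [Subgroup.coe_mul, ← mul_assoc] at this

theorem fixB {g x : GG A B} (h : g • vB A B x = vB A B x) :
    (x : Γ)⁻¹ * (g : Γ) * (x : Γ) ∈ B := by
  rw [smul_vB] at h
  have := vB_eq.1 h.symm
  rwa [Subgroup.coe_mul, ← mul_assoc] at this

/-- the next vertex after `g B, g A` -/
theorem nextA {g : GG A B} {w : Vt A B} (h : (tr A B).Adj (vA A B g) w) (hw : w ≠ vB A B g) :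
    ∃ a : GG A B, (a : Γ) ∈ A ∧ (a : Γ) ∉ B ∧ w = vB A B (g * a) ∧
      vA A B g = vA A B (g * a) := by
  obtain ⟨a, ha, rfl⟩ := adjA h
  refine ⟨a, ha, ?_, rfl, ?_⟩
  · intro hb
    apply hw
    rw [vB_eq]
    have := inv_mem hb
    simpa using this
  · rw [vA_eq]
    simpa using ha

/-- the next vertex after `g A, g B` -/
theorem nextB {g : GG A B} {w : Vt A B} (h : (tr A B).Adj (vB A B g) w) (hw : w ≠ vA A B g) :
    ∃ b : GG A B, (b : Γ) ∈ B ∧ (b : Γ) ∉ A ∧ w = vA A B (g * b) ∧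
      vB A B g = vB A B (g * b) := by
  obtain ⟨b, hb, rfl⟩ := adjB h
  refine ⟨b, hb, ?_, rfl, ?_⟩
  · intro ha
    apply hw
    rw [vA_eq]
    have := inv_mem ha
    simpa using this
  · rw [vB_eq]
    simpa using hb

/-- the elements of the edge group which fix the two adjacent edges of a path with three edges -/
def Core3 (A B : Subgroup Γ) : Prop :=
  ∀ k ∈ A, k ∈ B → ∀ a ∈ A, a ∉ B → ∀ b ∈ B, b ∉ A → a⁻¹ * k * a ∈ B → b⁻¹ * k * b ∈ A → k = 1

theorem core_path (hc : Core3 A B) {g x : GG A B} {w w' : Vt A B}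
    (hw : (tr A B).Adj (vA A B x) w) (hwn : w ≠ vB A B x)
    (hw' : (tr A B).Adj (vB A B x) w') (hwn' : w' ≠ vA A B x)
    (h1 : g • vA A B x = vA A B x) (h2 : g • vB A B x = vB A B x) (h3 : g • w = w)
    (h4 : g • w' = w') : g = 1 := by
  obtain ⟨a, ha, ha', rfl, -⟩ := nextA hw hwn
  obtain ⟨b, hb, hb', rfl, -⟩ := nextB hw' hwn'
  have k1 := fixA h1
  have k2 := fixB h2
  have k3 := fixB h3
  have k4 := fixA h4
  have e3 : ((x * a : GG A B) : Γ)⁻¹ * (g : Γ) * ((x * a : GG A B) : Γ) =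
      (a : Γ)⁻¹ * ((x : Γ)⁻¹ * (g : Γ) * (x : Γ)) * (a : Γ) := by
    rw [Subgroup.coe_mul]
    group
  have e4 : ((x * b : GG A B) : Γ)⁻¹ * (g : Γ) * ((x * b : GG A B) : Γ) =
      (b : Γ)⁻¹ * ((x : Γ)⁻¹ * (g : Γ) * (x : Γ)) * (b : Γ) := by
    rw [Subgroup.coe_mul]
    group
  rw [e3] at k3
  rw [e4] at k4
  have h5 := hc _ k1 k2 _ ha ha' _ hb hb' k3 k4
  have h6 : (g : Γ) = 1 := by
    have h7 : (g : Γ) = (x : Γ) * ((x : Γ)⁻¹ * (g : Γ) * (x : Γ)) * (x : Γ)⁻¹ := by group
    rw [h7, h5]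
    group
  exact Subtype.ext h6

/-- the pointwise stabilizers of the paths of length at least three are trivial -/
theorem acyl3 (hc : Core3 A B) (u w : Vt A B) (p : (tr A B).Walk u w) (hp : p.IsPath)
    (hlen : 3 ≤ p.length) (g : GG A B) (hg : ∀ x ∈ p.support, g • x = x) : g = 1 := by
  have hinj : ∀ i ≤ p.length, ∀ j ≤ p.length, p.getVert i = p.getVert j → i = j := by
    intro i hi j hj hij
    exact hp.getVert_injOn hi hj hij
  have h01 := p.adj_getVert_succ (i := 0) (by omega)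
  have h12 := p.adj_getVert_succ (i := 1) (by omega)
  have h23 := p.adj_getVert_succ (i := 2) (by omega)
  have hne : p.getVert 0 ≠ p.getVert 2 := fun h => by
    have := hinj 0 (by omega) 2 (by omega) h
    omega
  have hne' : p.getVert 3 ≠ p.getVert 1 := fun h => by
    have := hinj 3 (by omega) 1 (by omega) h
    omega
  have hfix : ∀ i, g • p.getVert i = p.getVert i := fun i => hg _ (p.getVert_mem_support _)
  have f0 := hfix 0
  have f1 := hfix 1
  have f2 := hfix 2
  have f3 := hfix 3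
  simp only [Nat.reduceAdd, zero_add] at h01 h12 h23
  obtain ⟨x, ⟨e1, e2⟩ | ⟨e1, e2⟩⟩ := h12
  · rw [e1] at h01 hne' f1
    rw [e2] at h23 hne f2
    exact core_path hc h01.symm hne h23 hne' f1 f2 f0 f3
  · rw [e1] at h01 hne' f1
    rw [e2] at h23 hne f2
    exact core_path hc h23 hne' h01.symm hne f2 f1 f3 f0

variable {C : ∀ (G : Type) [Group G], Prop}

theorem stabA (hC : ClosedE C) (hA : C A) (g : GG A B) :
    C ↥(MulAction.stabilizer (GG A B) (vA A B g)) := by
  let f : ↥(MulAction.stabilizer (GG A B) (vA A B g)) →* A :=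
    { toFun := fun x => ⟨(g : Γ)⁻¹ * ((x : GG A B) : Γ) * (g : Γ), fixA x.2⟩
      map_one' := by
        apply Subtype.ext
        simp
      map_mul' := fun x y => by
        apply Subtype.ext
        simp only [Subgroup.coe_mul]
        group }
  refine hC.base.of_injective _ _ f ?_ hA
  intro x y hxy
  have h1 := congrArg Subtype.val hxy
  have h2 : (g : Γ)⁻¹ * ((x : GG A B) : Γ) * (g : Γ) =
      (g : Γ)⁻¹ * ((y : GG A B) : Γ) * (g : Γ) := h1
  have h3 := mul_left_cancel (mul_right_cancel h2)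
  exact Subtype.ext (Subtype.ext h3)

theorem stabB (hC : ClosedE C) (hB : C B) (g : GG A B) :
    C ↥(MulAction.stabilizer (GG A B) (vB A B g)) := by
  let f : ↥(MulAction.stabilizer (GG A B) (vB A B g)) →* B :=
    { toFun := fun x => ⟨(g : Γ)⁻¹ * ((x : GG A B) : Γ) * (g : Γ), fixB x.2⟩
      map_one' := by
        apply Subtype.ext
        simp
      map_mul' := fun x y => by
        apply Subtype.ext
        simp only [Subgroup.coe_mul]
        group }
  refine hC.base.of_injective _ _ f ?_ hB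
  intro x y hxy
  have h1 := congrArg Subtype.val hxy
  have h2 : (g : Γ)⁻¹ * ((x : GG A B) : Γ) * (g : Γ) =
      (g : Γ)⁻¹ * ((y : GG A B) : Γ) * (g : Γ) := h1
  have h3 := mul_left_cancel (mul_right_cancel h2)
  exact Subtype.ext (Subtype.ext h3)

/-- **the group generated by `A` and `B` is in the class** -/
theorem lev_closed (hC : ClosedE C) (hAc : AcylF C) (h : Lev A B lA lB) (hc : Core3 A B)
    (hA : C A) (hB : C B) : C (GG A B) := by
  classical
  refine of_fg hC fun H hH => ?_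
  refine hAc H (Vt A B) (tr A B) hH (tr_tree h) (fun g u v huv => tr_act (g : GG A B) u v huv)
    (fun g u v huv => tr_inv (g : GG A B) u v huv) ⟨3, 1, ?_⟩ fun v => ?_
  · intro u w p hp hlen F hF
    refine Finset.card_le_one.2 fun g hg g' hg' => ?_
    have h1 := acyl3 hc u w p hp hlen (g : GG A B) (fun x hx => hF g hg x hx)
    have h2 := acyl3 hc u w p hp hlen (g' : GG A B) (fun x hx => hF g' hg' x hx)
    exact Subtype.ext (h1.trans h2.symm)
  · refine C_stab hC H v ?_
    rcases cases_v v with ⟨g, rfl⟩ | ⟨g, rfl⟩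
    · exact stabA hC hA g
    · exact stabB hC hB g

end Pool.Agent.U670.AT
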