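import Mathlib

/-!
# The group `GE₂(R)` and degree functions

Owner helper670.
-/

set_option autoImplicit false

namespace Pool.Agent.U670.GE

/-- `deg` is a degree function on the `K`-algebra `R` (which need not be commutative): the degree of
a sum is at most the maximum of the degrees, `R` has no zero divisors and the degree of a product of
nonzero elements is the sum of the degrees, and the elements of degree zero are the constants. -/
structure IsDegree (K R : Type) [Field K] [Ring R] [Algebra K R] (deg : R → ℕ) : Prop where
  add_le : ∀ x y : R, deg (x + y) ≤ max (deg x) (deg y)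
  mul_ne : ∀ x y : R, x ≠ 0 → y ≠ 0 → x * y ≠ 0
  mul : ∀ x y : R, x ≠ 0 → y ≠ 0 → deg (x * y) = deg x + deg y
  zero_iff : ∀ x : R, deg x = 0 ↔ ∃ a : K, x = algebraMap K R a

/-- `GE₂(R)`: the group generated by the elementary and the invertible diagonal `2 × 2` matrices over
the ring `R` -/
def GE2 (R : Type) [Ring R] : Subgroup (Matrix (Fin 2) (Fin 2) R)ˣ :=
  Subgroup.closure {g | (g.val 1 0 = 0 ∧ g.val 0 1 = 0) ∨ (∃ r, g.val = !![1, r; 0, 1]) ∨
    ∃ r, g.val = !![1, 0; r, 1]}

end Pool.Agent.U670.GE
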