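import Pool.Agent.U670.GEDef
import Pool.Agent.U670.AmMod

/-!
# The levels for `GE₂(R)`

Owner helper670.
-/

set_option autoImplicit false

namespace Pool.Agent.U670.GE

open Matrix
open Pool.Agent.U670.AT

variable {K R : Type} [Field K] [Ring R] [Algebra K R]

section deg

variable {deg : R → ℕ} (hd : IsDegree K R deg)
include hd

theorem deg_cst (a : K) : deg (algebraMap K R a) = 0 := (hd.zero_iff _).2 ⟨a, rfl⟩

theorem deg_zero : deg 0 = 0 := by
  have := deg_cst hd 0
  rwa [map_zero] at this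

theorem deg_mul_cst_le (x : R) (a : K) : deg (x * algebraMap K R a) ≤ deg x := by
  by_cases hx : x = 0
  · rw [hx, zero_mul]
  by_cases ha : algebraMap K R a = 0
  · rw [ha, mul_zero, deg_zero hd]
    exact Nat.zero_le _
  rw [hd.mul _ _ hx ha, deg_cst hd, add_zero]

theorem deg_mul_cst (x : R) {a : K} (ha : a ≠ 0) : deg (x * algebraMap K R a) = deg x := by
  refine le_antisymm (deg_mul_cst_le hd x a) ?_
  have h := deg_mul_cst_le hd (x * algebraMap K R a) a⁻¹
  rwa [mul_assoc, ← map_mul, mul_inv_cancel₀ ha, map_one, mul_one] at h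

theorem deg_neg (x : R) : deg (-x) = deg x := by
  have h := deg_mul_cst hd x (a := -1) (neg_ne_zero.2 one_ne_zero)
  rwa [map_neg, map_one, mul_neg, mul_one] at h

theorem deg_add_eq {x y : R} (h : deg x < deg y) : deg (x + y) = deg y := by
  have h1 := hd.add_le x y
  have h2 := hd.add_le (x + y) (-x)
  rw [deg_neg hd, show x + y + -x = y by abel] at h2
  have h3 : max (deg x) (deg y) = deg y := max_eq_right h.le
  rw [h3] at h1
  rcases le_max_iff.1 h2 with h4 | h4
  · exact le_antisymm h1 h4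
  · exact absurd h (not_lt.2 h4)

theorem deg_add_eq' {x y : R} (h : deg y < deg x) : deg (x + y) = deg x := by
  rw [add_comm]
  exact deg_add_eq hd h

end deg

/-- the units of the ring of `2 × 2` matrices -/
abbrev M2 (R : Type) [Ring R] : Type := (Matrix (Fin 2) (Fin 2) R)ˣ

/-- the invertible constant matrices as matrices over `R` -/
noncomputable def cst (K R : Type) [Field K] [Ring R] [Algebra K R] : M2 K →* M2 R :=
  Units.map ((algebraMap K R).mapMatrix : Matrix (Fin 2) (Fin 2) K →+* _).toMonoidHom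

theorem cst_val (α : M2 K) (i j : Fin 2) : (cst K R α).val i j = algebraMap K R (α.val i j) := rfl

/-- the group of the constant matrices -/
noncomputable def A0 (K R : Type) [Field K] [Ring R] [Algebra K R] : Subgroup (M2 R) :=
  (cst K R).range

theorem mul2 (g h : M2 R) (i j : Fin 2) :
    (g * h).val i j = g.val i 0 * h.val 0 j + g.val i 1 * h.val 1 j := by
  rw [Units.val_mul, Matrix.mul_apply, Fin.sum_univ_two]

theorem inv_rel (g : M2 R) (i j : Fin 2) :
    (g⁻¹).val i 0 * g.val 0 j + (g⁻¹).val i 1 * g.val 1 j = if i = j then 1 else 0 := by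
  rw [← mul2, inv_mul_cancel, Units.val_one, Matrix.one_apply]

theorem inv_rel' (g : M2 R) (i j : Fin 2) :
    g.val i 0 * (g⁻¹).val 0 j + g.val i 1 * (g⁻¹).val 1 j = if i = j then 1 else 0 := by
  rw [← mul2, mul_inv_cancel, Units.val_one, Matrix.one_apply]

theorem col_ne [Nontrivial R] (g : M2 R) (j : Fin 2) : g.val 0 j ≠ 0 ∨ g.val 1 j ≠ 0 := by
  by_contra h
  push Not at h
  have h1 := inv_rel g j j
  rw [h.1, h.2, mul_zero, mul_zero, add_zero, if_pos rfl] at h1
  exact zero_ne_one h1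

/-- the upper triangular matrices with constant diagonal entries -/
def B0 (K R : Type) [Field K] [Ring R] [Algebra K R] : Subgroup (M2 R) where
  carrier := {g | g.val 1 0 = 0 ∧ (∃ a : K, a ≠ 0 ∧ g.val 0 0 = algebraMap K R a) ∧
    ∃ d : K, d ≠ 0 ∧ g.val 1 1 = algebraMap K R d}
  one_mem' := ⟨by simp, ⟨1, one_ne_zero, by simp⟩, 1, one_ne_zero, by simp⟩
  mul_mem' := by
    rintro g h ⟨g1, ⟨a, ha, g2⟩, d, hd, g3⟩ ⟨h1, ⟨a', ha', h2⟩, d', hd', h3⟩
    refine ⟨?_, ⟨a * a', mul_ne_zero ha ha', ?_⟩, d * d', mul_ne_zero hd hd', ?_⟩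
    · rw [mul2, g1, h1, zero_mul, mul_zero, add_zero]
    · rw [mul2, g2, h1, h2, mul_zero, add_zero, map_mul]
    · rw [mul2, g1, g3, h3, zero_mul, zero_add, map_mul]
  inv_mem' := by
    rintro g ⟨g1, ⟨a, ha, g2⟩, d, hd, g3⟩
    have e1 : (g⁻¹).val 1 0 = 0 := by
      have h := inv_rel g 1 0
      rw [g1, g2, mul_zero, add_zero, if_neg (by decide)] at h
      have h2 := congrArg (fun x => x * algebraMap K R a⁻¹) h
      simp only [zero_mul, mul_assoc, ← map_mul, mul_inv_cancel₀ ha, map_one, mul_one] at h2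
      exact h2
    refine ⟨e1, ⟨a⁻¹, inv_ne_zero ha, ?_⟩, d⁻¹, inv_ne_zero hd, ?_⟩
    · have h := inv_rel g 0 0
      rw [g1, g2, mul_zero, add_zero, if_pos rfl] at h
      have h2 := congrArg (fun x => x * algebraMap K R a⁻¹) h
      simp only [one_mul, mul_assoc, ← map_mul, mul_inv_cancel₀ ha, map_one, mul_one] at h2
      exact h2
    · have h := inv_rel' g 1 1
      rw [g1, g3, zero_mul, zero_add, if_pos rfl] at h
      have h2 := congrArg (fun x => algebraMap K R d⁻¹ * x) h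
      simp only [mul_one, ← mul_assoc, ← map_mul, inv_mul_cancel₀ hd, map_one, one_mul] at h2
      exact h2

/-- the scalar matrices -/
noncomputable def Z0 (K R : Type) [Field K] [Ring R] [Algebra K R] : Subgroup (M2 R) :=
  (Units.map (algebraMap K (Matrix (Fin 2) (Fin 2) R)).toMonoidHom).range

theorem Z0_cen {z : M2 R} (hz : z ∈ Z0 K R) (g : M2 R) : z * g = g * z := by
  obtain ⟨c, rfl⟩ := hz
  apply Units.ext
  exact Algebra.commutes _ _

instance Z0_normal : (Z0 K R).Normal := ⟨fun z hz g => by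
  rw [← Z0_cen hz g, mul_inv_cancel_right]
  exact hz⟩

theorem mem_Z0 {g : M2 R} : g ∈ Z0 K R ↔ ∃ c : K, c ≠ 0 ∧ g.val 0 0 = algebraMap K R c ∧
    g.val 1 1 = algebraMap K R c ∧ g.val 0 1 = 0 ∧ g.val 1 0 = 0 := by
  constructor
  · rintro ⟨c, rfl⟩
    refine ⟨c, c.ne_zero, ?_, ?_, ?_, ?_⟩ <;>
    simp [Matrix.algebraMap_matrix_apply]
  · rintro ⟨c, hc, h0, h1, h2, h3⟩
    refine ⟨Units.mk0 c hc, ?_⟩
    apply Units.ext
    ext i j
    fin_cases i <;> fin_cases j <;> simp [Matrix.algebraMap_matrix_apply, h0, h1, h2, h3]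

theorem mem_A0 {g : M2 R} : g ∈ A0 K R ↔ ∃ α : M2 K, ∀ i j, g.val i j = algebraMap K R (α.val i j) := by
  constructor
  · rintro ⟨α, rfl⟩
    exact ⟨α, fun i j => rfl⟩
  · rintro ⟨α, h⟩
    refine ⟨α, ?_⟩
    apply Units.ext
    ext i j
    exact (h i j).symm

theorem ZA : Z0 K R ≤ A0 K R := by
  intro z hz
  obtain ⟨c, hc, h0, h1, h2, h3⟩ := mem_Z0.1 hz
  refine mem_A0.2 ⟨Units.map (algebraMap K (Matrix (Fin 2) (Fin 2) K)).toMonoidHom (Units.mk0 c hc), ?_⟩
  intro i j
  fin_cases i <;> fin_cases j <;> simp [Matrix.algebraMap_matrix_apply, h0, h1, h2, h3]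

theorem ZB : Z0 K R ≤ B0 K R := by
  intro z hz
  obtain ⟨c, hc, h0, h1, h2, h3⟩ := mem_Z0.1 hz
  exact ⟨h3, ⟨c, hc, h0⟩, c, hc, h1⟩

/-- a triangular matrix with constant entries is a constant matrix -/
theorem B_A [Nontrivial R] {g : M2 R} (hg : g ∈ B0 K R) {r : K} (hr : g.val 0 1 = algebraMap K R r) :
    g ∈ A0 K R := by
  obtain ⟨h1, ⟨a, ha, h2⟩, d, hd, h3⟩ := hg
  have e1 : !![a, r; 0, d] * !![a⁻¹, -(a⁻¹ * r * d⁻¹); 0, d⁻¹] = (1 : Matrix (Fin 2) (Fin 2) K) := by
    ext i j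
    fin_cases i <;> fin_cases j <;> simp [Matrix.mul_apply, Fin.sum_univ_two, ha, hd]
    field_simp
    ring
  have e2 : !![a⁻¹, -(a⁻¹ * r * d⁻¹); 0, d⁻¹] * !![a, r; 0, d] = (1 : Matrix (Fin 2) (Fin 2) K) := by
    ext i j
    fin_cases i <;> fin_cases j <;> simp [Matrix.mul_apply, Fin.sum_univ_two, ha, hd]
  refine mem_A0.2 ⟨⟨_, _, e1, e2⟩, ?_⟩
  intro i j
  fin_cases i <;> fin_cases j <;> simp [h1, h2, h3, hr]

/-- a constant matrix which is triangular -/
theorem A_B [Nontrivial R] {g : M2 R} (hg : g ∈ A0 K R) (h0 : g.val 1 0 = 0) : g ∈ B0 K R := by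
  obtain ⟨α, h⟩ := mem_A0.1 hg
  have hinj := (algebraMap K R).injective
  have h10 : α.val 1 0 = 0 := by
    apply hinj
    rw [← h 1 0, h0, map_zero]
  refine ⟨h0, ⟨α.val 0 0, ?_, h 0 0⟩, α.val 1 1, ?_, h 1 1⟩
  · intro h00
    rcases col_ne α 0 with h1 | h1
    · exact h1 h00
    · exact h1 h10
  · intro h11
    have h2 := inv_rel' α 1 1
    rw [h10, h11, zero_mul, zero_mul, add_zero, if_pos rfl] at h2
    exact zero_ne_one h2

/-- the level of the coset of the triangular group -/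
def dB (deg : R → ℕ) (g : M2 R) : ℕ := max (deg (g.val 0 0)) (deg (g.val 1 0))

/-- the level of the coset of the constant group -/
def dA (deg : R → ℕ) (g : M2 R) : ℕ := max (dB deg g) (max (deg (g.val 0 1)) (deg (g.val 1 1)))

section lev

variable {deg : R → ℕ} (hd : IsDegree K R deg)
include hd

theorem deg_le_dA (g : M2 R) (i j : Fin 2) : deg (g.val i j) ≤ dA deg g := by
  unfold dA dB
  fin_cases i <;> fin_cases j <;> simp

theorem comb_le {x y : R} {m : ℕ} (hx : deg x ≤ m) (hy : deg y ≤ m) (a b : K) :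
    deg (x * algebraMap K R a + y * algebraMap K R b) ≤ m :=
  (hd.add_le _ _).trans (max_le ((deg_mul_cst_le hd x a).trans hx)
    ((deg_mul_cst_le hd y b).trans hy))

theorem dA_mul_le (g : M2 R) {a : M2 R} (ha : a ∈ A0 K R) : dA deg (g * a) ≤ dA deg g := by
  obtain ⟨α, h⟩ := mem_A0.1 ha
  have key : ∀ i j, deg ((g * a).val i j) ≤ dA deg g := by
    intro i j
    rw [mul2, h, h]
    exact comb_le hd (deg_le_dA hd g i 0) (deg_le_dA hd g i 1) _ _
  refine max_le (max_le (key 0 0) (key 1 0)) (max_le (key 0 1) (key 1 1))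

theorem dA_mul (g : M2 R) {a : M2 R} (ha : a ∈ A0 K R) : dA deg (g * a) = dA deg g := by
  refine le_antisymm (dA_mul_le hd g ha) ?_
  have h := dA_mul_le hd (g * a) (inv_mem ha)
  rwa [mul_inv_cancel_right] at h

theorem dB_mul (g : M2 R) {b : M2 R} (hb : b ∈ B0 K R) : dB deg (g * b) = dB deg g := by
  obtain ⟨h1, ⟨a, ha, h2⟩, -⟩ := hb
  unfold dB
  rw [mul2, mul2, h1, h2, mul_zero, mul_zero, add_zero, add_zero, deg_mul_cst hd _ ha,
    deg_mul_cst hd _ ha]

theorem dA_const {a : M2 R} (ha : a ∈ A0 K R) : dA deg a = 0 := by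
  obtain ⟨α, h⟩ := mem_A0.1 ha
  unfold dA dB
  rw [h, h, h, h, deg_cst hd, deg_cst hd, deg_cst hd, deg_cst hd]
  simp

theorem lev_uA [Nontrivial R] (g a : M2 R) (ha : a ∈ A0 K R) (h1 : dB deg g < dA deg g)
    (h2 : dB deg (g * a) < dA deg g) : a ∈ B0 K R := by
  refine A_B ha ?_
  obtain ⟨α, h⟩ := mem_A0.1 ha
  by_contra hne
  have hα : α.val 1 0 ≠ 0 := by
    intro h0
    apply hne
    rw [h, h0, map_zero]
  -- the second column has the maximal degree
  obtain ⟨m, hm⟩ : ∃ m, m = dA deg g := ⟨_, rfl⟩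
  rw [← hm] at h1 h2
  have h3 : m ≤ max (deg (g.val 0 1)) (deg (g.val 1 1)) := by
    rw [hm]
    unfold dA
    rw [hm] at h1
    refine max_le ?_ le_rfl
    by_contra hcon
    rw [not_le] at hcon
    have : dA deg g = dB deg g := by
      unfold dA
      exact max_eq_left hcon.le
    omega
  have key : ∀ i, m ≤ deg (g.val i 1) → False := by
    intro i hi
    have h4 : deg ((g * a).val i 0) ≤ dB deg (g * a) := by
      unfold dB
      fin_cases i <;> simp
    have h5 : deg (g.val i 0) ≤ dB deg g := by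
      unfold dB
      fin_cases i <;> simp
    rw [mul2, h, h] at h4
    have h6 : deg (g.val i 0 * algebraMap K R (α.val 0 0)) <
        deg (g.val i 1 * algebraMap K R (α.val 1 0)) := by
      rw [deg_mul_cst hd _ hα]
      exact lt_of_le_of_lt (deg_mul_cst_le hd _ _) (by omega)
    rw [deg_add_eq hd h6, deg_mul_cst hd _ hα] at h4
    omega
  rcases le_max_iff.1 h3 with h4 | h4
  · exact key 0 h4
  · exact key 1 h4

theorem lev_uB [Nontrivial R] (g b : M2 R) (hb : b ∈ B0 K R) (hbA : b ∉ A0 K R)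
    (h1 : dA deg g ≤ dB deg g) : dB deg g < dA deg (g * b) := by
  have hr : deg (b.val 0 1) ≠ 0 := by
    intro h0
    obtain ⟨r, hr⟩ := (hd.zero_iff _).1 h0
    exact hbA (B_A hb hr)
  have hb0 : b.val 0 1 ≠ 0 := by
    intro h0
    apply hr
    rw [h0, deg_zero hd]
  obtain ⟨-, -, d, hd0, h3⟩ := hb
  -- an entry of the first column
  obtain ⟨i, hi, hi'⟩ : ∃ i : Fin 2, g.val i 0 ≠ 0 ∧ deg (g.val i 0) = dB deg g := by
    by_cases hm : dB deg g = 0
    · have hz : ∀ i : Fin 2, deg (g.val i 0) = 0 := by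
        intro i
        have : deg (g.val i 0) ≤ dB deg g := by
          unfold dB
          fin_cases i <;> simp
        omega
      rcases col_ne g 0 with h | h
      · exact ⟨0, h, by rw [hz, hm]⟩
      · exact ⟨1, h, by rw [hz, hm]⟩
    · have hmax : dB deg g = deg (g.val 0 0) ∨ dB deg g = deg (g.val 1 0) := by
        unfold dB
        exact max_choice _ _
      rcases hmax with h | h
      · refine ⟨0, fun h0 => hm ?_, h.symm⟩
        rw [h, h0, deg_zero hd]
      · refine ⟨1, fun h0 => hm ?_, h.symm⟩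
        rw [h, h0, deg_zero hd]
  have h4 : deg (g.val i 1) ≤ dB deg g := (deg_le_dA hd g i 1).trans h1
  have h5 : deg (g.val i 0 * b.val 0 1) = dB deg g + deg (b.val 0 1) := by
    rw [hd.mul _ _ hi hb0, hi']
  have h6 : deg (g.val i 1 * b.val 1 1) ≤ dB deg g := by
    rw [h3]
    exact (deg_mul_cst_le hd _ _).trans h4
  have h7 : deg ((g * b).val i 1) = dB deg g + deg (b.val 0 1) := by
    rw [mul2, deg_add_eq' hd (by rw [h5]; omega), h5]
  have h8 := deg_le_dA hd (g * b) i 1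
  omega

theorem lev [Nontrivial R] : Lev (A0 K R) (B0 K R) (dA deg) (dB deg) where
  iA := fun g a ha => dA_mul hd g ha
  iB := fun g b hb => dB_mul hd g hb
  le := fun g => le_max_left _ _
  base := fun a ha => by
    rw [dA_const hd ha]
    exact Nat.zero_le _
  uA := fun g a ha h1 h2 => lev_uA hd g a ha h1 h2
  uB := fun g b hb hbA h1 => lev_uB hd g b hb hbA h1

theorem core [Nontrivial R] : Core3Mod (Z0 K R) (A0 K R) (B0 K R) := by
  intro k hkA hkB a ha haB b hb hbA h1 h2
  have hinj := (algebraMap K R).injective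
  obtain ⟨κ, hκ⟩ := mem_A0.1 hkA
  obtain ⟨k1, ⟨x, hx, k2⟩, y, hy, k3⟩ := hkB
  -- conjugation by `b`
  have hr : deg (b.val 0 1) ≠ 0 := by
    intro h0
    obtain ⟨r, hr⟩ := (hd.zero_iff _).1 h0
    exact hbA (B_A hb hr)
  obtain ⟨b1, ⟨p, hp, b2⟩, q, hq, b3⟩ := hb
  obtain ⟨β, hβ⟩ := mem_A0.1 h2
  have e : k * b = b * (b⁻¹ * k * b) := by group
  have e1 := congrArg (fun m : M2 R => m.val 0 1) e
  have e2 := congrArg (fun m : M2 R => m.val 1 1) e
  have e3 := congrArg (fun m : M2 R => m.val 0 0) e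
  have e4 := congrArg (fun m : M2 R => m.val 1 0) e
  simp only [mul2 k b, mul2 b, hβ] at e1 e2 e3 e4
  rw [k1, b1, k3, b3, zero_mul, zero_mul, zero_add, zero_add, ← map_mul, ← map_mul] at e2
  rw [k1, b1, zero_mul, zero_mul, mul_zero, zero_add, zero_add, b3, ← map_mul] at e4
  have e2' : y * q = q * β.val 1 1 := hinj e2
  have e4' : β.val 1 0 = 0 := by
    have : (0 : K) = q * β.val 1 0 := by
      apply hinj
      rw [map_zero]
      exact e4
    rcases mul_eq_zero.1 this.symm with h | h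
    · exact absurd h hq
    · exact h
  have hβ11 : β.val 1 1 = y := by
    have : q * β.val 1 1 = q * y := by rw [← e2', mul_comm]
    exact mul_left_cancel₀ hq this
  rw [k2, b1, b2, mul_zero, add_zero, ← map_mul, e4', map_zero, mul_zero, add_zero, ← map_mul] at e3
  have hβ00 : β.val 0 0 = x := by
    have : x * p = p * β.val 0 0 := hinj e3
    have : p * β.val 0 0 = p * x := by rw [← this, mul_comm]
    exact mul_left_cancel₀ hp this
  rw [k2, b2, b3, hβ11, hκ 0 1] at e1
  -- x r + κ q = p β01 + r y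
  have hxy : x = y := by
    by_contra hne
    have h3 : b.val 0 1 * algebraMap K R (x - y) =
        algebraMap K R (p * β.val 0 1 - κ.val 0 1 * q) := by
      rw [map_sub, map_sub, map_mul, map_mul, mul_sub, ← Algebra.commutes x (b.val 0 1)]
      rw [sub_eq_sub_iff_add_eq_add]
      exact e1
    have h4 := deg_mul_cst hd (b.val 0 1) (sub_ne_zero.2 hne)
    rw [h3, deg_cst hd] at h4
    exact hr h4.symm
  subst hxy
  -- conjugation by `a`
  obtain ⟨α, hα⟩ := mem_A0.1 ha
  have ha10 : α.val 1 0 ≠ 0 := by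
    intro h0
    apply haB
    exact A_B ha (by rw [hα, h0, map_zero])
  obtain ⟨c1, ⟨u, hu, c2⟩, v, hv, c3⟩ := h1
  have f : k * a = a * (a⁻¹ * k * a) := by group
  have f1 := congrArg (fun m : M2 R => m.val 1 0) f
  have f2 := congrArg (fun m : M2 R => m.val 0 0) f
  simp only [mul2 k a, mul2 a, c1, c2, hα, k1, k2, k3, hκ 0 1] at f1 f2
  rw [zero_mul, mul_zero, zero_add, add_zero, ← map_mul, ← map_mul] at f1
  rw [mul_zero, add_zero, ← map_mul, ← map_mul, ← map_mul, ← map_add] at f2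
  have f1' : x * α.val 1 0 = α.val 1 0 * u := hinj f1
  have f2' : x * α.val 0 0 + κ.val 0 1 * α.val 1 0 = α.val 0 0 * u := hinj f2
  have hxu : u = x := by
    have : α.val 1 0 * u = α.val 1 0 * x := by rw [← f1', mul_comm]
    exact mul_left_cancel₀ ha10 this
  rw [hxu, mul_comm (α.val 0 0) x, add_eq_left] at f2'
  have hκ01 : κ.val 0 1 = 0 := (mul_eq_zero.1 f2').resolve_right ha10
  refine mem_Z0.2 ⟨x, hx, k2, k3, ?_, k1⟩
  rw [hκ, hκ01, map_zero]

end lev

end Pool.Agent.U670.GE
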