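import Pool.Agent.U670.GELev

/-!
# `GE₂(R)` is in the class

Owner helper670.
-/

set_option autoImplicit false

namespace Pool.Agent.U670.GE

open Pool.Agent.U670.AT
open Pool.Agent.Y110.FJ (ClosedE)
open Pool.Agent.N509.TX (AcylF of_fg C_stab)

variable {K R : Type} [Field K] [Ring R] [Algebra K R]
variable {Cl : ∀ (G : Type) [Group G], Prop}

/-! ### the constant group modulo scalars -/

/-- conjugation on the matrices -/
def conjEnd (K : Type) [Field K] : M2 K →* Module.End K (Matrix (Fin 2) (Fin 2) K) where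
  toFun g :=
    { toFun := fun x => g.val * x * (g⁻¹).val
      map_add' := fun x y => by rw [mul_add, add_mul]
      map_smul' := fun c x => by simp }
  map_one' := by
    apply LinearMap.ext
    intro x
    change (1 : M2 K).val * x * ((1 : M2 K)⁻¹).val = x
    rw [inv_one, Units.val_one, one_mul, mul_one]
  map_mul' g h := by
    apply LinearMap.ext
    intro x
    change (g * h).val * x * ((g * h)⁻¹).val = g.val * (h.val * x * (h⁻¹).val) * (g⁻¹).val
    rw [mul_inv_rev, Units.val_mul, Units.val_mul]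
    simp only [mul_assoc]

theorem conjEnd_apply (g : M2 K) (x : Matrix (Fin 2) (Fin 2) K) :
    conjEnd K g x = g.val * x * (g⁻¹).val := rfl

theorem conjEnd_ker {g : M2 K} (h : conjEnd K g = 1) (x : Matrix (Fin 2) (Fin 2) K) :
    g.val * x = x * g.val := by
  have h1 : g.val * x * (g⁻¹).val = x := by
    rw [← conjEnd_apply, h]
    rfl
  calc g.val * x = g.val * x * ((g⁻¹).val * g.val) := by
        rw [← Units.val_mul, inv_mul_cancel, Units.val_one, mul_one]
    _ = g.val * x * (g⁻¹).val * g.val := by simp only [mul_assoc]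
    _ = x * g.val := by rw [h1]

theorem conjEnd_scalar {g : M2 K} (h : conjEnd K g = 1) :
    ∃ c : K, g.val = !![c, 0; 0, c] := by
  have h1 := conjEnd_ker h !![0, 1; 0, 0]
  have h2 := conjEnd_ker h !![0, 0; 1, 0]
  have e1 := congrFun (congrFun h1 0) 1
  have e2 := congrFun (congrFun h1 1) 1
  have e3 := congrFun (congrFun h2 0) 0
  simp only [Matrix.mul_apply, Fin.sum_univ_two] at e1 e2 e3
  simp at e1 e2 e3
  refine ⟨g.val 0 0, ?_⟩
  ext i j
  fin_cases i <;> fin_cases j <;> simp [e1, e2, e3]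

theorem C_A0 [Nontrivial R] (hC : ClosedE Cl)
    (hGL : ∀ n : ℕ, Cl (Matrix.GeneralLinearGroup (Fin n) K)) :
    Cl ((A0 K R).map (QuotientGroup.mk' (Z0 K R))) := by
  let b := Module.finBasis K (Matrix (Fin 2) (Fin 2) K)
  let e : (Module.End K (Matrix (Fin 2) (Fin 2) K))ˣ ≃* Matrix.GeneralLinearGroup
      (Fin (Module.finrank K (Matrix (Fin 2) (Fin 2) K))) K :=
    Units.mapEquiv (LinearMap.toMatrixAlgEquiv b).toMulEquiv
  let ψ : M2 K →* Matrix.GeneralLinearGroup
      (Fin (Module.finrank K (Matrix (Fin 2) (Fin 2) K))) K :=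
    e.toMonoidHom.comp (MonoidHom.toHomUnits (conjEnd K))
  let f : M2 K →* M2 R ⧸ Z0 K R := (QuotientGroup.mk' (Z0 K R)).comp (cst K R)
  have hr : f.range = (A0 K R).map (QuotientGroup.mk' (Z0 K R)) := by
    rw [MonoidHom.range_comp]
    rfl
  have hψf : ∀ g, ψ g = 1 → g ∈ f.ker := by
    intro g hg
    have h1 : MonoidHom.toHomUnits (conjEnd K) g = 1 := by
      apply e.injective
      rw [map_one]
      exact hg
    obtain ⟨c, hc⟩ := conjEnd_scalar (congrArg Units.val h1)
    have hc0 : c ≠ 0 := by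
      intro h0
      rcases col_ne g 0 with h1 | h1
      · apply h1
        rw [hc, h0]
        simp
      · apply h1
        rw [hc]
        simp
    rw [MonoidHom.mem_ker]
    refine (QuotientGroup.eq_one_iff _).2 (mem_Z0.2 ⟨c, hc0, ?_, ?_, ?_, ?_⟩) <;>
    · rw [cst_val, hc]
      simp
  have hfψ : ∀ g, g ∈ f.ker → ψ g = 1 := by
    intro g hg
    have h1 : cst K R g ∈ Z0 K R := (QuotientGroup.eq_one_iff _).1 hg
    obtain ⟨c, hc, h00, h11, h01, h10⟩ := mem_Z0.1 h1
    have hinj := (algebraMap K R).injective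
    simp only [cst_val] at h00 h11 h01 h10
    have g00 : g.val 0 0 = c := hinj h00
    have g11 : g.val 1 1 = c := hinj h11
    have g01 : g.val 0 1 = 0 := hinj (by rw [h01, map_zero])
    have g10 : g.val 1 0 = 0 := hinj (by rw [h10, map_zero])
    have hg' : g.val = algebraMap K _ c := by
      ext i j
      fin_cases i <;> fin_cases j <;> simp [Matrix.algebraMap_matrix_apply, g00, g11, g01, g10]
    have h2 : conjEnd K g = 1 := by
      apply LinearMap.ext
      intro x
      rw [conjEnd_apply, hg', Algebra.commutes, ← hg', mul_assoc, ← Units.val_mul, mul_inv_cancel,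
        Units.val_one, mul_one]
      rfl
    have h3 : MonoidHom.toHomUnits (conjEnd K) g = 1 := Units.ext h2
    change e (MonoidHom.toHomUnits (conjEnd K) g) = 1
    rw [h3, map_one]
  have hinj : Function.Injective (QuotientGroup.lift f.ker ψ hfψ) := by
    rw [injective_iff_map_eq_one]
    intro x hx
    obtain ⟨y, rfl⟩ := QuotientGroup.mk_surjective x
    exact (QuotientGroup.eq_one_iff _).2 (hψf y hx)
  rw [← hr]
  refine hC.base.of_injective _ _ ((QuotientGroup.lift f.ker ψ hfψ).comp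
    (QuotientGroup.quotientKerEquivRange f).symm.toMonoidHom) ?_
    (hGL (Module.finrank K (Matrix (Fin 2) (Fin 2) K)))
  intro x y hxy
  exact (QuotientGroup.quotientKerEquivRange f).symm.injective (hinj hxy)

/-! ### the triangular group -/

/-- the diagonal entries -/
def diagHom (K R : Type) [Field K] [Ring R] [Algebra K R] : ↥(B0 K R) →* R × R where
  toFun g := ((g : M2 R).val 0 0, (g : M2 R).val 1 1)
  map_one' := by simp
  map_mul' g h := by
    have hg := g.2.1
    have hh := h.2.1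
    ext
    · change ((g : M2 R) * (h : M2 R)).val 0 0 = _
      rw [mul2, hh, mul_zero, add_zero]
      rfl
    · change ((g : M2 R) * (h : M2 R)).val 1 1 = _
      rw [mul2, hg, zero_mul, zero_add]
      rfl

theorem diag_comm (g h : ↥(B0 K R)) : diagHom K R g * diagHom K R h = diagHom K R h * diagHom K R g := by
  obtain ⟨-, ⟨a, -, ha⟩, d, -, hd⟩ := g.2
  obtain ⟨-, ⟨a', -, ha'⟩, d', -, hd'⟩ := h.2
  ext
  · change (g : M2 R).val 0 0 * (h : M2 R).val 0 0 = (h : M2 R).val 0 0 * (g : M2 R).val 0 0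
    rw [ha, ha', ← map_mul, ← map_mul, mul_comm]
  · change (g : M2 R).val 1 1 * (h : M2 R).val 1 1 = (h : M2 R).val 1 1 * (g : M2 R).val 1 1
    rw [hd, hd', ← map_mul, ← map_mul, mul_comm]

theorem ker_comm {g h : ↥(B0 K R)} (hg : diagHom K R g = 1) (hh : diagHom K R h = 1) :
    g * h = h * g := by
  have g0 : (g : M2 R).val 0 0 = 1 := congrArg Prod.fst hg
  have g1 : (g : M2 R).val 1 1 = 1 := congrArg Prod.snd hg
  have h0 : (h : M2 R).val 0 0 = 1 := congrArg Prod.fst hh
  have h1 : (h : M2 R).val 1 1 = 1 := congrArg Prod.snd hh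
  have g2 := g.2.1
  have h2 := h.2.1
  apply Subtype.ext
  apply Units.ext
  ext i j
  change ((g : M2 R) * (h : M2 R)).val i j = ((h : M2 R) * (g : M2 R)).val i j
  rw [mul2, mul2]
  fin_cases i <;> fin_cases j <;> simp [g0, g1, h0, h1, g2, h2]
  abel

theorem B0_solvable : Group.IsSolvable ↥(B0 K R) := by
  obtain ⟨U, hU⟩ : ∃ U : Subgroup ↥(B0 K R), U = (MonoidHom.toHomUnits (diagHom K R)).ker := ⟨_, rfl⟩
  have hk : ∀ g ∈ U, diagHom K R g = 1 := by
    intro g hg
    rw [hU] at hg
    exact congrArg Units.val ((MonoidHom.mem_ker).1 hg)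
  have h1 : derivedSeries ↥(B0 K R) 1 ≤ U := by
    rw [derivedSeries_succ, derivedSeries_zero, Subgroup.commutator_le]
    intro a _ b _
    rw [hU, MonoidHom.mem_ker, map_commutatorElement, commutatorElement_eq_one_iff_mul_comm]
    apply Units.ext
    exact diag_comm a b
  refine (Group.isSolvable_def _).2 ⟨2, ?_⟩
  rw [derivedSeries_succ, eq_bot_iff, Subgroup.commutator_le]
  intro a ha b hb
  rw [Subgroup.mem_bot, commutatorElement_eq_one_iff_mul_comm]
  exact ker_comm (hk a (h1 ha)) (hk b (h1 hb))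

theorem C_B0 (hS : ∀ (G : Type) [Group G], Group.IsSolvable G → Cl G) :
    Cl ((B0 K R).map (QuotientGroup.mk' (Z0 K R))) := by
  refine hS _ ?_
  have := B0_solvable (K := K) (R := R)
  exact Group.isSolvable_of_surjective
    (f := ((QuotientGroup.mk' (Z0 K R)).subgroupMap (B0 K R)))
    ((QuotientGroup.mk' (Z0 K R)).subgroupMap_surjective (B0 K R))

/-! ### the generators -/

/-- the matrix `(0, 1; 1, 0)` -/
def wM (R : Type) [Ring R] : M2 R where
  val := !![0, 1; 1, 0]
  inv := !![0, 1; 1, 0]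
  val_inv := by
    ext i j
    fin_cases i <;> fin_cases j <;> simp [Matrix.mul_apply, Fin.sum_univ_two]
  inv_val := by
    ext i j
    fin_cases i <;> fin_cases j <;> simp [Matrix.mul_apply, Fin.sum_univ_two]

theorem wM_mem : wM R ∈ A0 K R := by
  refine mem_A0.2 ⟨wM K, fun i j => ?_⟩
  fin_cases i <;> fin_cases j <;> simp [wM]

theorem unit_const {deg : R → ℕ} (hd : IsDegree K R deg) [Nontrivial R] {x y : R} (h : x * y = 1) :
    ∃ a : K, a ≠ 0 ∧ x = algebraMap K R a := by
  have hx : x ≠ 0 := by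
    rintro rfl
    rw [zero_mul] at h
    exact zero_ne_one h
  have hy : y ≠ 0 := by
    rintro rfl
    rw [mul_zero] at h
    exact zero_ne_one h
  have h1 := hd.mul x y hx hy
  have h2 : deg (1 : R) = 0 := (hd.zero_iff _).2 ⟨1, (map_one _).symm⟩
  rw [h, h2] at h1
  obtain ⟨a, ha⟩ := (hd.zero_iff x).1 (by omega)
  refine ⟨a, ?_, ha⟩
  rintro rfl
  rw [map_zero] at ha
  exact hx ha

theorem GE2_le {deg : R → ℕ} (hd : IsDegree K R deg) [Nontrivial R] :
    GE2 R ≤ A0 K R ⊔ B0 K R := by
  rw [GE2, Subgroup.closure_le]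
  have hup : ∀ g : M2 R, (∃ r, g.val = !![1, r; 0, 1]) → g ∈ B0 K R := by
    rintro g ⟨r, hr⟩
    refine ⟨by rw [hr]; simp, ⟨1, one_ne_zero, by rw [hr]; simp⟩, 1, one_ne_zero, by rw [hr]; simp⟩
  rintro g (⟨h1, h2⟩ | h | ⟨r, hr⟩)
  · refine Subgroup.mem_sup_right ⟨h1, ?_, ?_⟩
    · have h3 := inv_rel' g 0 0
      rw [h2, zero_mul, add_zero, if_pos rfl] at h3
      exact unit_const hd h3
    · have h3 := inv_rel' g 1 1
      rw [h1, zero_mul, zero_add, if_pos rfl] at h3
      exact unit_const hd h3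
  · exact Subgroup.mem_sup_right (hup g h)
  · have h3 : wM R * g * (wM R)⁻¹ ∈ B0 K R := by
      apply hup
      refine ⟨r, ?_⟩
      ext i j
      rw [mul2, mul2, mul2, hr]
      fin_cases i <;> fin_cases j <;> simp [wM]
    have h4 : g = (wM R)⁻¹ * (wM R * g * (wM R)⁻¹) * wM R := by group
    rw [h4]
    exact mul_mem (mul_mem (inv_mem (Subgroup.mem_sup_left wM_mem)) (Subgroup.mem_sup_right h3))
      (Subgroup.mem_sup_left wM_mem)

/-- **main theorem** -/
theorem main (hC : ClosedE Cl) (hA : AcylF Cl)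
    (hS : ∀ (G : Type) [Group G], Group.IsSolvable G → Cl G)
    (hGL : ∀ n : ℕ, Cl (Matrix.GeneralLinearGroup (Fin n) K)) {deg : R → ℕ}
    (hd : IsDegree K R deg) : Cl ↥(GE2 R) := by
  rcases subsingleton_or_nontrivial R with hR | hR
  · refine hC.base.of_injective _ _ (1 : ↥(GE2 R) →* Multiplicative ℤ) ?_ hC.base.int
    intro x y _
    apply Subtype.ext
    apply Units.ext
    ext i j
    exact Subsingleton.elim _ _
  · have h := lev_closed_mod hC hA hS (Z0 K R) (fun z hz g => Z0_cen hz g) ZA ZB (lev hd) (core hd)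
      (C_A0 hC hGL) (C_B0 hS)
    exact hC.base.of_injective _ _ (Subgroup.inclusion (GE2_le hd))
      (Subgroup.inclusion_injective _) h

end Pool.Agent.U670.GE
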