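import Pool.Agent.H43R2.Cplx.Digits
import Pool.Agent.H43R2.Cplx.Branch

/-!
# Words without long repetitions near the beginning

Let `w` be a word over a finite alphabet such that a window of length `n` which starts at `j` and
occurs at an earlier place satisfies `D n ≤ j + K`.  Then its factor complexity is at least
`(D + 1 / (D^3 + 3 D^2 + 4 D + 3)) n - O(1)`.
-/

set_option autoImplicit false

namespace Pool.Agent.U670.JB

open Pool.Agent.H43R2.Cplx

variable {α : Type*}

/-- a window of length `n` which starts at `j` and occurs at an earlier place satisfies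
`D n ≤ j + K` -/
def RepD (w : ℕ → α) (D K : ℝ) : Prop :=
  ∀ i j n : ℕ, i < j → E w n i j → D * n ≤ j + K

theorem RepD.np {w : ℕ → α} {D K : ℝ} (hD : 0 < D) (h : RepD w D K) : NP w := by
  intro i j hij
  obtain ⟨n, hn⟩ := exists_nat_gt (((j : ℝ) + K) / D)
  refine ⟨n, fun hE => ?_⟩
  have h1 := h i j n hij hE
  rw [div_lt_iff₀ hD] at hn
  linarith

/-- there is a repetition of length `n` -/
theorem exists_rep [Finite α] (w : ℕ → α) (n : ℕ) : ∃ j, ∃ i < j, E w n i j := by
  obtain ⟨i, j, hij, he⟩ := Finite.exists_ne_map_eq_of_infinite (win w n)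
  rcases lt_or_gt_of_ne hij with h | h
  · exact ⟨j, i, h, E_iff.2 he⟩
  · exact ⟨i, j, h, E_iff.2 he.symm⟩

open Classical in
/-- the first place at which a window of length `n` starts which has occurred before -/
noncomputable def R [Finite α] (w : ℕ → α) (n : ℕ) : ℕ := Nat.find (exists_rep w n)

variable [Finite α] {w : ℕ → α}

theorem R_spec (w : ℕ → α) (n : ℕ) : ∃ i < R w n, E w n i (R w n) := by
  classical
  exact Nat.find_spec (exists_rep w n)

theorem R_le {n i j : ℕ} (hij : i < j) (h : E w n i j) : R w n ≤ j := by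
  classical
  exact Nat.find_min' (exists_rep w n) ⟨i, hij, h⟩

theorem R_mono {m n : ℕ} (h : m ≤ n) : R w m ≤ R w n := by
  obtain ⟨i, hi, hE⟩ := R_spec w n
  exact R_le hi (hE.mono h)

theorem R_le_p (n : ℕ) : R w n ≤ p w n := by
  have hinj : Set.InjOn (win w n) (Set.Iio (R w n)) := by
    intro a ha b hb hab
    by_contra hne
    rcases lt_or_gt_of_ne hne with h | h
    · have := R_le h (E_iff.2 hab)
      have := Set.mem_Iio.1 hb
      omega
    · have := R_le h (E_iff.2 hab.symm)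
      have := Set.mem_Iio.1 ha
      omega
  have h1 : (Set.Iio (R w n)).ncard = R w n := by
    rw [← Finset.coe_Iio, Set.ncard_coe_finset, Nat.card_Iio]
  have h2 := hinj.ncard_image
  have h3 : (win w n '' Set.Iio (R w n)).ncard ≤ p w n :=
    Set.ncard_le_ncard (Set.image_subset_range _ _) (finite_range w n)
  omega

/-- For a break `a` (`R a < R (a + 1)`): the maximal match. -/
theorem brk {a : ℕ} (hR : R w a < R w (a + 1)) :
    ∃ i < R w a, E w a i (R w a) ∧ w (i + a) ≠ w (R w a + a) := by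
  obtain ⟨i, hi, hE⟩ := R_spec w a
  refine ⟨i, hi, hE, fun h => ?_⟩
  have := R_le hi (hE.succ h)
  omega

omit [Finite α] in
/-- of two matches one has a short period -/
theorem pair {D K : ℝ} (hw : RepD w D K) {a b ra rb ia ib : ℕ} (hab : a < b) (hr : ra < rb)
    (hE : E w a ia ra) (hne : w (ia + a) ≠ w (ra + a))
    (hEb : E w b ib rb) (hd : rb - ra ≤ a) :
    (ra : ℝ) - ia ≤ rb + K - D * (a - (rb - ra)) ∨ (rb : ℝ) - ib ≤ rb + K - D * (a - (rb - ra)) := by
  obtain ⟨δ, hδ⟩ : ∃ δ, rb = ra + δ := ⟨rb - ra, by omega⟩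
  subst hδ
  obtain ⟨L, hL⟩ : ∃ L, a = L + δ := ⟨a - δ, by omega⟩
  subst hL
  have h1 : E w L (ia + δ) (ra + δ) := hE.shift
  have h2 : E w L ib (ra + δ) := hEb.mono (by omega)
  have h3 : E w L (ia + δ) ib := h1.trans h2.symm
  have e1 : ((L + δ : ℕ) : ℝ) - (((ra + δ : ℕ) : ℝ) - ra) = L := by push_cast; ring
  rw [e1]
  rcases lt_trichotomy (ia + δ) ib with h | h | h
  · right
    have := hw _ _ _ h h3
    linarith
  · exfalso
    apply hne
    have h4 := hEb L (by omega)
    rw [show ia + (L + δ) = ib + L by omega, show ra + (L + δ) = ra + δ + L by omega]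
    exact h4
  · left
    have := hw _ _ _ h h3.symm
    push_cast at this ⊢
    linarith

omit [Finite α] in
/-- two overlapping matches with short periods are impossible -/
theorem overlap {a b ra rb ia ib : ℕ} (hab : a < b) (hia : ia < ra) (hib : ib < rb) (hr : ra < rb)
    (hE : E w a ia ra) (hne : w (ia + a) ≠ w (ra + a)) (hEb : E w b ib rb)
    (h1 : (rb - ra) + (ra - ia) ≤ a) (h2 : rb - ib ≤ a) : False := by
  obtain ⟨sa, hsa⟩ : ∃ s, ra = ia + s := ⟨ra - ia, by omega⟩
  obtain ⟨sb, hsb⟩ : ∃ s, rb = ib + s := ⟨rb - ib, by omega⟩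
  have h3 := hEb (ra + a - rb) (by omega)
  have h4 := hEb (ia + a - rb) (by omega)
  have h5 := hE (a - sb) (by omega)
  apply hne
  rw [show rb + (ra + a - rb) = ra + a by omega] at h3
  rw [show rb + (ia + a - rb) = ia + a by omega] at h4
  rw [← h3, ← h4, show ib + (ia + a - rb) = ia + (a - sb) by omega, h5]
  congr 1
  omega

theorem R_zero_le : R w 0 ≤ 1 := R_le (i := 0) one_pos (fun k hk => absurd hk (by omega))

/-- the previous break -/
theorem prev {n : ℕ} (h : 1 < R w n) : ∃ a < n, R w a < R w n ∧ R w (a + 1) = R w n := by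
  classical
  have h0 : R w 0 < R w n := lt_of_le_of_lt R_zero_le h
  obtain ⟨a, ha⟩ : ∃ a, a = Nat.findGreatest (fun m => R w m < R w n) n := ⟨_, rfl⟩
  have h1 : R w a < R w n := by
    rw [ha]
    exact Nat.findGreatest_spec (P := fun m => R w m < R w n) (Nat.zero_le n) h0
  have h2 : a ≤ n := by rw [ha]; exact Nat.findGreatest_le n
  have h3 : a ≠ n := by rintro rfl; omega
  refine ⟨a, by omega, h1, le_antisymm (R_mono (by omega)) ?_⟩
  by_contra hcon
  push Not at hcon
  have := Nat.le_findGreatest (P := fun m => R w m < R w n) (show a + 1 ≤ n by omega) hcon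
  omega

/-- the next break -/
theorem next {D K : ℝ} (hD : 0 < D) (hw : RepD w D K) (n : ℕ) :
    ∃ a, n ≤ a ∧ R w a = R w n ∧ R w n < R w (a + 1) := by
  classical
  obtain ⟨N, hN⟩ := exists_nat_gt (((R w n : ℝ) + K) / D)
  rw [div_lt_iff₀ hD] at hN
  have hb : ∀ m, R w m ≤ R w n → m ≤ N := by
    intro m hm
    obtain ⟨i, hi, hE⟩ := R_spec w m
    have h1 := hw i _ m hi hE
    have h2 : (R w m : ℝ) ≤ R w n := by exact_mod_cast hm
    by_contra hcon
    push Not at hcon
    have h3 : (N : ℝ) < m := by exact_mod_cast hcon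
    nlinarith
  obtain ⟨a, ha⟩ : ∃ a, a = Nat.findGreatest (fun m => R w m ≤ R w n) N := ⟨_, rfl⟩
  have h1 : R w a ≤ R w n := by
    rw [ha]
    exact Nat.findGreatest_spec (P := fun m => R w m ≤ R w n) (hb n le_rfl) le_rfl
  have h2 : n ≤ a := by
    rw [ha]
    exact Nat.le_findGreatest (P := fun m => R w m ≤ R w n) (hb n le_rfl) le_rfl
  refine ⟨a, h2, le_antisymm h1 (R_mono h2), ?_⟩
  by_contra hcon
  push Not at hcon
  have := Nat.le_findGreatest (P := fun m => R w m ≤ R w n) (hb _ hcon) hcon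
  omega

set_option maxHeartbeats 4000000 in
/-- **The complexity of words without long repetitions near the beginning.** -/
theorem complexity {D K : ℝ} (hD : 0 < D) (hK : 0 ≤ K) (hw : RepD w D K) {c : ℝ}
    (hc : c = 1 / (D ^ 3 + 3 * D ^ 2 + 4 * D + 3)) (n : ℕ) :
    (D + c) * n ≤ p w n + (D + c) * (K + 1) / (D * (1 - c)) := by
  have hden : 0 < D ^ 3 + 3 * D ^ 2 + 4 * D + 3 := by positivity
  have hc0 : 0 < c := by rw [hc]; positivity
  have hc1 : c ≤ 1 / 3 := by
    rw [hc]
    apply one_div_le_one_div_of_le (by norm_num)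
    nlinarith [pow_pos hD 3, pow_pos hD 2]
  have hcD : c * (D ^ 3 + 3 * D ^ 2 + 4 * D + 3) = 1 := by rw [hc]; field_simp
  set K2 : ℝ := (D + c) * (K + 1) / (D * (1 - c)) with hK2
  have hDc : 0 < D * (1 - c) := by apply mul_pos hD; linarith
  have hK2' : K + 1 ≤ K2 := by
    rw [hK2, le_div_iff₀ hDc]
    nlinarith [mul_pos hD hc0, mul_nonneg hD.le hK, mul_nonneg hc0.le hK]
  by_contra hcon
  push Not at hcon
  have hnp : NP w := RepD.np hD hw
  have hP0 : (0 : ℝ) ≤ p w n := Nat.cast_nonneg _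
  have hn1 : K + 1 < D * (1 - c) * n := by
    have h1 : K2 < (D + c) * n := by linarith
    rw [hK2, div_lt_iff₀ hDc] at h1
    have h2 : (D + c) * (K + 1) < (D + c) * (D * (1 - c) * n) := by linarith
    exact lt_of_mul_lt_mul_left h2 (by positivity)
  have hn0 : (0 : ℝ) ≤ n := Nat.cast_nonneg _
  have hlow : ∀ m, D * m ≤ R w m + K := by
    intro m
    obtain ⟨i, hi, hE⟩ := R_spec w m
    exact hw i _ m hi hE
  have hRn : 1 < R w n := by
    have h1 := hlow n
    have h2 : D * (1 - c) * n ≤ D * n := by nlinarith [mul_nonneg (mul_nonneg hD.le hc0.le) hn0]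
    have h3 : (1 : ℝ) < R w n := by linarith
    exact_mod_cast h3
  obtain ⟨a0, h0n, h0R, h0b⟩ := next hD hw n
  obtain ⟨a1, h1n, h1R, h1b⟩ := prev hRn
  set e : ℝ := c * n + (K + 1 - K2) with he
  have hecn : e ≤ c * n := by rw [he]; linarith
  -- first gap
  have q1 : (R w n : ℝ) + (n - a1 - 1) ≤ p w n := by
    have h1 := NP.p_add hnp (a1 + 1) (n - (a1 + 1))
    rw [show a1 + 1 + (n - (a1 + 1)) = n by omega] at h1
    have h2 := R_le_p (w := w) (a1 + 1)
    rw [h1b] at h2
    have h3 : R w n + (n - (a1 + 1)) ≤ p w n := by omega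
    have h4 : ((R w n + (n - (a1 + 1)) : ℕ) : ℝ) ≤ p w n := by exact_mod_cast h3
    rw [Nat.cast_add, Nat.cast_sub (by omega)] at h4
    push_cast at h4
    linarith
  have g1 : (n : ℝ) - a1 ≤ e := by
    have := hlow n
    rw [he]
    linarith
  have hRa1 : 1 < R w a1 := by
    have h1 := hlow a1
    have h2 : D * (1 - c) * n ≤ D * a1 := by
      have : (n : ℝ) * (1 - c) ≤ a1 := by nlinarith
      nlinarith
    have h3 : (1 : ℝ) < R w a1 := by linarith
    exact_mod_cast h3
  obtain ⟨a2, h2n, h2R, h2b⟩ := prev hRa1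
  have q2 : (R w a1 : ℝ) + (a1 - a2 - 1) ≤ p w a1 := by
    have h1 := NP.p_add hnp (a2 + 1) (a1 - (a2 + 1))
    rw [show a2 + 1 + (a1 - (a2 + 1)) = a1 by omega] at h1
    have h2 := R_le_p (w := w) (a2 + 1)
    rw [h2b] at h2
    have h3 : R w a1 + (a1 - (a2 + 1)) ≤ p w a1 := by omega
    have h4 : ((R w a1 + (a1 - (a2 + 1)) : ℕ) : ℝ) ≤ p w a1 := by exact_mod_cast h3
    rw [Nat.cast_add, Nat.cast_sub (by omega)] at h4
    push_cast at h4
    linarith
  have q3 : (p w a1 : ℝ) + (n - a1) ≤ p w n := by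
    have h1 := NP.p_add hnp a1 (n - a1)
    rw [show a1 + (n - a1) = n by omega] at h1
    have h4 : ((p w a1 + (n - a1) : ℕ) : ℝ) ≤ p w n := by exact_mod_cast h1
    rw [Nat.cast_add, Nat.cast_sub (by omega)] at h4
    exact h4
  have g2 : (n : ℝ) - a2 ≤ (1 + D) * e := by
    have h1 := hlow a1
    have h2 : D * (n - a1) ≤ D * e := mul_le_mul_of_nonneg_left g1 hD.le
    rw [he] at h2 ⊢
    nlinarith
  set X : ℝ := R w n - D * a2 + K with hX
  have gX : X ≤ (1 + D + D ^ 2) * e := by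
    have h2 : D * (n - a2) ≤ D * ((1 + D) * e) := mul_le_mul_of_nonneg_left g2 hD.le
    have h3 : (R w n : ℝ) ≤ p w n := by exact_mod_cast R_le_p n
    have h4 : X ≤ c * n + K - K2 + D * ((1 + D) * e) := by
      rw [hX]; nlinarith
    have h5 : c * n + K - K2 = e - 1 := by rw [he]; ring
    nlinarith
  have he0 : 0 ≤ e := by
    have h6 : (a1 : ℝ) ≤ n := by exact_mod_cast h1n.le
    linarith
  have hfin : (2 + D) * X ≤ a2 := by
    have h1 : (2 + D) * X ≤ (2 + D) * ((1 + D + D ^ 2) * e) :=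
      mul_le_mul_of_nonneg_left gX (by linarith)
    have h2 : (D ^ 3 + 3 * D ^ 2 + 4 * D + 3) * e ≤ n := by
      have h3 : (D ^ 3 + 3 * D ^ 2 + 4 * D + 3) * e ≤ (D ^ 3 + 3 * D ^ 2 + 4 * D + 3) * (c * n) :=
        mul_le_mul_of_nonneg_left hecn hden.le
      have h4 : (D ^ 3 + 3 * D ^ 2 + 4 * D + 3) * (c * n) = n := by
        rw [← mul_assoc, mul_comm _ c, hcD, one_mul]
      linarith
    nlinarith
  -- the three matches
  obtain ⟨i0, hi0, hE0, hne0⟩ := brk (w := w) (a := a0) (by rw [h0R]; exact h0b)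
  obtain ⟨i1, hi1, hE1, hne1⟩ := brk (w := w) (a := a1) (by rw [h1b]; exact h1R)
  obtain ⟨i2, hi2, hE2, hne2⟩ := brk (w := w) (a := a2) (by rw [h2b]; exact h2R)
  have r0 : (R w a0 : ℝ) = R w n := by rw [h0R]
  have r1 : (R w a1 : ℝ) ≤ R w n := by exact_mod_cast h1R.le
  have r2 : (R w a2 : ℝ) ≤ R w a1 := by exact_mod_cast h2R.le
  have l2 := hlow a2
  have a21 : (a2 : ℝ) ≤ a1 := by exact_mod_cast h2n.le
  have hX0 : 0 ≤ X := by
    rw [hX]; linarith
  have hXD : (R w n : ℝ) - R w a2 ≤ X := by rw [hX]; linarith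
  have hDX : 0 ≤ D * X := mul_nonneg hD.le hX0
  have hfin' : 2 * X + D * X ≤ a2 := by
    have : (2 + D) * X = 2 * X + D * X := by ring
    linarith
  clear gX g2 g1 hfin he0 hecn q1 q2 q3 hn1 hK2' hcD hden hc1 hDc hcon hP0
  have key : ∀ a b i j : ℕ, a2 ≤ a → a < b → R w a2 ≤ R w a → R w a < R w b → R w b ≤ R w n →
      i < R w a → j < R w b →
      E w a i (R w a) → w (i + a) ≠ w (R w a + a) → E w b j (R w b) →
      ((R w a : ℝ) - i ≤ X + D * X ∨ (R w b : ℝ) - j ≤ X + D * X) ∧
      ¬ ((R w a : ℝ) - i ≤ X + D * X ∧ (R w b : ℝ) - j ≤ X + D * X) := by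
    intro a b i j ha hab hRa hRab hRb hi hj hEa hne hEb
    have c1 : (a2 : ℝ) ≤ a := by exact_mod_cast ha
    have c2 : (R w a2 : ℝ) ≤ R w a := by exact_mod_cast hRa
    have c3 : (R w b : ℝ) ≤ R w n := by exact_mod_cast hRb
    have c4 : (R w a : ℝ) ≤ R w b := by exact_mod_cast hRab.le
    have c5 : (i : ℝ) ≤ R w a := by exact_mod_cast hi.le
    have c6 : (j : ℝ) ≤ R w b := by exact_mod_cast hj.le
    have hδ : (R w b : ℝ) - R w a ≤ X := by linarith
    have hXa : X ≤ a := by linarith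
    have hd : R w b - R w a ≤ a := by
      have : ((R w b - R w a : ℕ) : ℝ) ≤ a := by
        rw [Nat.cast_sub hRab.le]; linarith
      exact_mod_cast this
    constructor
    · have hB : (R w b : ℝ) + K - D * (a - (R w b - R w a)) ≤ X + D * X := by
        have h1 : D * (R w b - R w a) ≤ D * X := mul_le_mul_of_nonneg_left hδ hD.le
        have h2 : D * a2 ≤ D * a := mul_le_mul_of_nonneg_left c1 hD.le
        have h3 : D * ((a : ℝ) - (R w b - R w a)) = D * a - D * (R w b - R w a) := by ring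
        have h4 : X = R w n - D * a2 + K := hX
        rw [h3]
        linarith
      rcases pair hw hab hRab hEa hne hEb hd with h | h
      · left; linarith
      · right; linarith
    · rintro ⟨h1, h2⟩
      refine overlap hab hi hj hRab hEa hne hEb ?_ ?_
      · have : (((R w b - R w a) + (R w a - i) : ℕ) : ℝ) ≤ a := by
          rw [Nat.cast_add, Nat.cast_sub hRab.le, Nat.cast_sub hi.le]
          linarith
        exact_mod_cast this
      · have : ((R w b - j : ℕ) : ℝ) ≤ a := by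
          rw [Nat.cast_sub hj.le]
          linarith
        exact_mod_cast this
  have k21 := key a2 a1 i2 i1 le_rfl h2n le_rfl h2R h1R.le hi2 hi1 hE2 hne2 hE1
  have k10 := key a1 a0 i1 i0 h2n.le (by omega) h2R.le (by rw [h0R]; exact h1R) (by rw [h0R]) hi1
    hi0 hE1 hne1 hE0
  have k20 := key a2 a0 i2 i0 le_rfl (by omega) le_rfl (by rw [h0R]; omega) (by rw [h0R]) hi2
    hi0 hE2 hne2 hE0
  rcases k21.1 with h | h
  · rcases k10.1 with h' | h'
    · exact k21.2 ⟨h, h'⟩
    · exact k20.2 ⟨h, h'⟩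
  · rcases k20.1 with h' | h'
    · exact k21.2 ⟨h', h⟩
    · exact k10.2 ⟨h, h'⟩

end Pool.Agent.U670.JB
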